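import Pool.Agent.Helper95.GB.Iface

/-! # GB/GT: definitions for the group theory block (central extensions) -/

set_option autoImplicit false

namespace GB

open MvPolynomial

abbrev QZ := AddCircle (1 : ℚ)

/-- A normal subgroup `R` of `F` with a character `χ` of `R` which vanishes on the commutators (of
elements of `F`) lying in `R`. -/
structure CE (F : Type) [Group F] where
  R : Subgroup F
  nR : R.Normal
  χ : F → QZ
  add : ∀ r ∈ R, ∀ s ∈ R, χ (r * s) = χ r + χ s
  com : ∀ a b : F, a * b * a⁻¹ * b⁻¹ ∈ R → χ (a * b * a⁻¹ * b⁻¹) = 0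

namespace CE

variable {F : Type} [Group F] (c : CE F)

theorem χ_one : c.χ 1 = 0 := by
  have := c.add 1 c.R.one_mem 1 c.R.one_mem
  simpa using this

theorem χ_inv (r : F) (h : r ∈ c.R) : c.χ r⁻¹ = - c.χ r := by
  have := c.add r h r⁻¹ (c.R.inv_mem h)
  rw [mul_inv_cancel, χ_one] at this
  exact (neg_eq_of_add_eq_zero_right this.symm).symm

theorem conj_mem (a r : F) (h : r ∈ c.R) : a * r * a⁻¹ ∈ c.R := c.nR.conj_mem r h a

theorem χ_conj (a r : F) (h : r ∈ c.R) : c.χ (a * r * a⁻¹) = c.χ r := by
  have h1 : a * r * a⁻¹ * r⁻¹ ∈ c.R := c.R.mul_mem (c.conj_mem a r h) (c.R.inv_mem h)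
  have h2 := c.com a r h1
  have h3 := c.add _ h1 r h
  rw [h2, zero_add] at h3
  rw [← h3]
  congr 1
  group

end CE

/-- additive extension to polynomials of a function on monomials -/
noncomputable def ext {E A : Type} [AddCommGroup A] (c : (E →₀ ℕ) → A) (r : MvPolynomial E ℤ) : A :=
  ∑ M ∈ r.support, r.coeff M • c M

section ext

variable {E A : Type} [AddCommGroup A] (c : (E →₀ ℕ) → A)

theorem ext_eq (r : MvPolynomial E ℤ) (s : Finset (E →₀ ℕ)) (h : r.support ⊆ s) :
    ext c r = ∑ M ∈ s, r.coeff M • c M := by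
  classical
  refine Finset.sum_subset h (fun M _ hM => ?_)
  rw [notMem_support_iff.1 hM, zero_smul]

theorem ext_add (r s : MvPolynomial E ℤ) : ext c (r + s) = ext c r + ext c s := by
  classical
  rw [ext_eq c (r + s) (r.support ∪ s.support) support_add,
    ext_eq c r (r.support ∪ s.support) Finset.subset_union_left,
    ext_eq c s (r.support ∪ s.support) Finset.subset_union_right, ← Finset.sum_add_distrib]
  refine Finset.sum_congr rfl (fun M _ => ?_)
  rw [coeff_add, add_smul]

theorem ext_zero : ext c (0 : MvPolynomial E ℤ) = 0 := by simp [ext]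

/-- `ext c` as an additive homomorphism -/
noncomputable def extHom : MvPolynomial E ℤ →+ A where
  toFun := ext c
  map_zero' := ext_zero c
  map_add' := ext_add c

theorem extHom_apply (r : MvPolynomial E ℤ) : extHom c r = ext c r := rfl

theorem ext_neg (r : MvPolynomial E ℤ) : ext c (-r) = - ext c r := (extHom c).map_neg r

theorem ext_sub (r s : MvPolynomial E ℤ) : ext c (r - s) = ext c r - ext c s :=
  (extHom c).map_sub r s

theorem ext_sum {ι : Type} (s : Finset ι) (f : ι → MvPolynomial E ℤ) :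
    ext c (∑ i ∈ s, f i) = ∑ i ∈ s, ext c (f i) := map_sum (extHom c) f s

theorem ext_monomial (M : E →₀ ℕ) (n : ℤ) : ext c (monomial M n) = n • c M := by
  classical
  by_cases h : n = 0
  · simp [h, ext_zero]
  · rw [ext, support_monomial, if_neg h, Finset.sum_singleton, coeff_monomial, if_pos rfl]

theorem ext_X_mul (e : E) (M : E →₀ ℕ) (n : ℤ) : ext c (X e * monomial M n) = n • c (M + δ e) := by
  rw [X, monomial_mul, ext_monomial, one_mul, add_comm]

end ext

namespace DG

variable {V J E : Type} (S : DG V J E)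

/-- boundary of a 2-cell of the reduced complex -/
noncomputable def sqv {F : Type} [Group F] (f : J × (E →₀ ℕ) → F) (i j : J) (M : E →₀ ℕ) : F :=
  f (i, M + δ (S.be (S.vt j))) * f (j, M + δ (S.ed i)) * (f (i, M + δ (S.ed j)))⁻¹ *
    (f (j, M + δ (S.be (S.vt i))))⁻¹

/-- all boundaries of 2-cells are in `R` -/
def Lift {F : Type} [Group F] (c : CE F) (f : J × (E →₀ ℕ) → F) : Prop :=
  ∀ i j M, S.vt i ≠ S.vt j → S.sqv f i j M ∈ c.R

/-- the 2-cochain of a lift -/
noncomputable def cc {F : Type} [Group F] (c : CE F) (f : J × (E →₀ ℕ) → F) (i j : J)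
    (M : E →₀ ℕ) : QZ := by
  classical exact if S.vt i = S.vt j then 0 else c.χ (S.sqv f i j M)

/-- the pairing of two 1-chains -/
noncomputable def BB {F : Type} [Group F] [Fintype J] (c : CE F) (f : J × (E →₀ ℕ) → F)
    (z z' : J → MvPolynomial E ℤ) : QZ :=
  ∑ i, ∑ j, ext (S.cc c f i j) (z i * z' j)

/-- shift a walk of the reduced complex by the multiset `N` of spectators -/
noncomputable def sh (N : E →₀ ℕ) (w : List ((J × (E →₀ ℕ)) × Bool)) :
    List ((J × (E →₀ ℕ)) × Bool) :=
  w.map (fun a => ((a.1.1, a.1.2 + N), a.2))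

/-- the 1-chain of a walk -/
noncomputable def ch : List ((J × (E →₀ ℕ)) × Bool) → J → MvPolynomial E ℤ
  | [] => 0
  | a :: w => fun j => (by classical exact if a.1.1 = j then
      (if a.2 then monomial a.1.2 1 else - monomial a.1.2 1) else 0) + ch w j

/-- the walk uses only half-edges at vertices in `A` -/
def InV (A : Set V) (w : List ((J × (E →₀ ℕ)) × Bool)) : Prop := ∀ a ∈ w, S.vt a.1.1 ∈ A

end DG

end GB
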