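import Pool.Agent.Helper95.GB.GT.Defs

/-! # GB/GT/Pi1: the edge path group has the universal property (stub, prove in place)

Proof.  For `y : K.X` let `Reach y := ∃ w, K.IsWalk x w y`; choose `P y` with `K.IsWalk x (P y) y` for
reachable `y`, with `P x = []` (e.g. `P y = if y = x then [] else ...`, by `Classical`).
Define `g a := cls (P (s a) ++ [(a,true)] ++ rev (P (t a))) _` if `s a` is reachable (then `t a` is
reachable too, and this is a closed walk at `x`), and `g a := 1` otherwise.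

(1) For a reachable start: if `K.IsWalk y w z` and `y` is reachable then
`(cls (P y ++ w ++ rev (P z)) _ : K.Pi1 x) = K.val g w` (induction on `w`; for `w = []` one cancels
`P y ++ rev (P y)`; for `a :: w` insert `rev (P (tgt a)) ++ P (tgt a)`; for a backward edge use that
`g a` inverse is the class of the reversed word, `cls_inv`).  The cancellation
`u ++ (rev w ++ w) ++ v ~ u ++ v` is `Cx.rev_mul_self` in `Defs.lean`; for `w ++ rev w` apply it to
`rev w` (`rev (rev w) = w`).
(2) `sq`: if `s a` is not reachable then none of the four vertices of the 2-cell is reachable (they are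
connected by edges) and all four labels are `1`; otherwise by (1) both sides are the classes of
`P y ++ [(a,true),(b,true)] ++ rev (P z)` and `P y ++ [(c,true),(d,true)] ++ rev (P z)`, equal by
`cls_eq_of_elem` and `Elem.sq`.
(3) `surj`: every element is `cls w h` (`Quot.ind`), which is `val g w` by (1) with `y = z = x`.
(4) `univ`: given `l` with `K.Lab l`, the function `w ↦ val l w` on closed walks respects `Step`
(`val` of `u ++ r ++ v` is a product, and `val l r = val l r'` for `Elem r r'`), so it descends to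
`φ : K.Pi1 x → L` (`Quot.lift`), a homomorphism since `val l (u ++ v) = val l u * val l v`;
and `φ (val g w) = φ (cls w) = val l w` by (1).
-/

set_option autoImplicit false

namespace GB

theorem Cx.val_append (K : Cx) {L : Type} [Group L] (l : K.Ed → L) (u v : List (K.Ed × Bool)) :
    K.val l (u ++ v) = K.val l u * K.val l v := by
  induction u with
  | nil => simp [Cx.val]
  | cons a u ih => simp only [List.cons_append, Cx.val, ih, mul_assoc]

theorem Cx.val_rev (K : Cx) {L : Type} [Group L] (l : K.Ed → L) (u : List (K.Ed × Bool)) :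
    K.val l (K.rev u) = (K.val l u)⁻¹ := by
  induction u with
  | nil => simp [Cx.val, Cx.rev]
  | cons a u ih =>
    rw [Cx.rev_cons, Cx.val_append, ih]
    rcases a with ⟨a, _ | _⟩ <;> simp [Cx.val]

private theorem Pi1_elem (K : Cx) {L : Type} [Group L] (l : K.Ed → L) (hl : K.Lab l)
    {r r' : List (K.Ed × Bool)} (h : K.Elem r r') : K.val l r = K.val l r' := by
  cases h with
  | canc a => rcases a with ⟨a, _ | _⟩ <;> simp [Cx.val]
  | sq a b c d h => simpa [Cx.val] using hl a b c d h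
  | sqi a b c d h =>
    have h1 := hl a b c d h
    simp only [Cx.val, Bool.false_eq_true, if_false, mul_one]
    rw [← mul_inv_rev, ← mul_inv_rev, h1]

private theorem Pi1_revrev (K : Cx) (w : List (K.Ed × Bool)) : K.rev (K.rev w) = w := by
  induction w with
  | nil => simp [Cx.rev]
  | cons a w ih =>
    rw [Cx.rev_cons, Cx.rev_append, ih]
    rcases a with ⟨a, _ | _⟩ <;> simp [Cx.rev]

private theorem Pi1_congr {K : Cx} {x : K.X} {u v : List (K.Ed × Bool)} (h : u = v)
    (hu : K.IsWalk x u x) (hv : K.IsWalk x v x) :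
    (Cx.cls u hu : K.Pi1 x) = Cx.cls v hv := by
  subst h
  rfl

private theorem Pi1_canc {K : Cx} {x y : K.X} (w u v : List (K.Ed × Bool))
    (h : K.IsWalk x w y) (h1 : K.IsWalk x (u ++ (K.rev w ++ w) ++ v) x)
    (h2 : K.IsWalk x (u ++ v) x) : (Cx.cls _ h1 : K.Pi1 x) = Cx.cls _ h2 :=
  Cx.rev_mul_self w h u v h1 h2

private def Pi1Reach (K : Cx) (x y : K.X) : Prop := ∃ w, K.IsWalk x w y

private theorem Pi1_paths (K : Cx) (x : K.X) : ∃ P : K.X → List (K.Ed × Bool), P x = [] ∧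
    ∀ y, Pi1Reach K x y → K.IsWalk x (P y) y := by
  classical
  refine ⟨fun y => if y = x then [] else if h : Pi1Reach K x y then Classical.choose h else [],
    if_pos rfl, fun y hy => ?_⟩
  by_cases h : y = x
  · subst h
    change K.IsWalk y (if y = y then [] else _) y
    rw [if_pos rfl]
    rfl
  · change K.IsWalk x (if y = x then [] else if h : Pi1Reach K x y then
      Classical.choose h else []) y
    rw [if_neg h, dif_pos hy]
    exact Classical.choose_spec hy

private theorem Pi1_reach_fwd {K : Cx} {x : K.X} {a : K.Ed} (h : Pi1Reach K x (K.s a)) :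
    Pi1Reach K x (K.t a) := by
  obtain ⟨w, hw⟩ := h
  exact ⟨w ++ [(a, true)], Cx.isWalk_append hw ⟨rfl, rfl⟩⟩

private theorem Pi1_reach_bwd {K : Cx} {x : K.X} {a : K.Ed} (h : Pi1Reach K x (K.t a)) :
    Pi1Reach K x (K.s a) := by
  obtain ⟨w, hw⟩ := h
  exact ⟨w ++ [(a, false)], Cx.isWalk_append hw ⟨rfl, rfl⟩⟩

private theorem Pi1_reach_tgt {K : Cx} {x : K.X} {a : K.Ed × Bool}
    (h : Pi1Reach K x (K.src a)) : Pi1Reach K x (K.tgt a) := by
  rcases a with ⟨a, _ | _⟩
  · exact Pi1_reach_bwd h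
  · exact Pi1_reach_fwd h

section

variable {K : Cx} {x : K.X} {P : K.X → List (K.Ed × Bool)}
  (hP : ∀ y, Pi1Reach K x y → K.IsWalk x (P y) y)

include hP

private theorem Pi1_loop {y z : K.X} (hy : Pi1Reach K x y) {w : List (K.Ed × Bool)}
    (hw : K.IsWalk y w z) : K.IsWalk x (P y ++ w ++ K.rev (P z)) x := by
  have hz : Pi1Reach K x z := ⟨P y ++ w, Cx.isWalk_append (hP y hy) hw⟩
  exact Cx.isWalk_append (Cx.isWalk_append (hP y hy) hw) (Cx.isWalk_rev (hP z hz))

open Classical in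
/-- the labelling -/
private noncomputable def Pi1G (a : K.Ed) : K.Pi1 x :=
  if h : Pi1Reach K x (K.s a) then
    Cx.cls (P (K.s a) ++ [(a, true)] ++ K.rev (P (K.t a)))
      (Pi1_loop hP h (w := [(a, true)]) ⟨rfl, rfl⟩)
  else 1

private theorem Pi1G_pos {a : K.Ed} (h : Pi1Reach K x (K.s a)) : Pi1G hP a =
    Cx.cls (P (K.s a) ++ [(a, true)] ++ K.rev (P (K.t a)))
      (Pi1_loop hP h (w := [(a, true)]) ⟨rfl, rfl⟩) := by
  rw [Pi1G, dif_pos h]

private theorem Pi1G_neg {a : K.Ed} (h : ¬ Pi1Reach K x (K.s a)) : Pi1G hP a = 1 := by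
  rw [Pi1G, dif_neg h]

private theorem Pi1_one (a : K.Ed × Bool) (h : Pi1Reach K x (K.src a)) :
    (if a.2 then Pi1G hP a.1 else (Pi1G hP a.1)⁻¹) =
      Cx.cls (P (K.src a) ++ [a] ++ K.rev (P (K.tgt a)))
        (Pi1_loop hP h (w := [a]) ⟨rfl, rfl⟩) := by
  rcases a with ⟨a, _ | _⟩
  · have h' : Pi1Reach K x (K.s a) := Pi1_reach_bwd h
    simp only [Bool.false_eq_true, if_false]
    rw [Pi1G_pos hP h', Cx.cls_inv]
    apply Pi1_congr
    rw [Cx.rev_append, Cx.rev_append, Pi1_revrev]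
    simp [Cx.rev, Cx.src, Cx.tgt]
  · simp only [if_true]
    exact Pi1G_pos hP h

private theorem Pi1_val (w : List (K.Ed × Bool)) : ∀ (y z : K.X) (hy : Pi1Reach K x y)
    (hw : K.IsWalk y w z),
    (Cx.cls (P y ++ w ++ K.rev (P z)) (Pi1_loop hP hy hw) : K.Pi1 x) = K.val (Pi1G hP) w := by
  induction w with
  | nil =>
    intro y z hy hw
    obtain rfl : y = z := hw
    have h1 := Cx.isWalk_rev (hP y hy)
    have h2 : K.IsWalk x ([] ++ (K.rev (K.rev (P y)) ++ K.rev (P y)) ++ []) x := by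
      rw [Pi1_revrev]
      have := Pi1_loop hP hy (w := []) rfl
      simpa using this
    have h0 : K.IsWalk x (([] : List (K.Ed × Bool)) ++ []) x := rfl
    have h3 : (Cx.cls _ h2 : K.Pi1 x) = Cx.cls _ h0 :=
      Cx.rev_mul_self (K.rev (P y)) h1 [] [] h2 h0
    change _ = (1 : K.Pi1 x)
    rw [Cx.cls_one]
    refine Eq.trans (Pi1_congr ?_ _ _) h3
    rw [Pi1_revrev]
    simp
  | cons a w ih =>
    intro y z hy hw
    obtain ⟨rfl, hw2⟩ := hw
    have hy' : Pi1Reach K x (K.tgt a) := Pi1_reach_tgt hy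
    have h1 := ih (K.tgt a) z hy' hw2
    change _ = (if a.2 then Pi1G hP a.1 else (Pi1G hP a.1)⁻¹) * K.val (Pi1G hP) w
    rw [← h1, Pi1_one hP a hy, Cx.cls_mul]
    have h2 : K.IsWalk x ((P (K.src a) ++ [a]) ++ (K.rev (P (K.tgt a)) ++ P (K.tgt a)) ++
        (w ++ K.rev (P z))) x := by
      have := Cx.isWalk_append (Pi1_loop hP hy (w := [a]) ⟨rfl, rfl⟩) (Pi1_loop hP hy' hw2)
      simpa using this
    have h3 : K.IsWalk x ((P (K.src a) ++ [a]) ++ (w ++ K.rev (P z))) x := by
      have := Pi1_loop hP hy (w := a :: w) ⟨rfl, hw2⟩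
      simpa using this
    have h4 := Pi1_canc (P (K.tgt a)) (P (K.src a) ++ [a]) (w ++ K.rev (P z))
      (hP _ hy') h2 h3
    refine Eq.trans (Pi1_congr ?_ _ h3) (Eq.trans h4.symm (Pi1_congr ?_ h2 _))
    · simp
    · simp

end

theorem pid_pi1 (K : Cx) (x : K.X) : Nonempty (PiD K x (K.Pi1 x)) := by
  classical
  obtain ⟨P, hPx, hP⟩ := Pi1_paths K x
  have hx : Pi1Reach K x x := ⟨[], rfl⟩
  have hval : ∀ (w : List (K.Ed × Bool)) (hw : K.IsWalk x w x),
      (Cx.cls w hw : K.Pi1 x) = K.val (Pi1G hP) w := by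
    intro w hw
    rw [← Pi1_val hP w x x hx hw]
    apply Pi1_congr
    rw [hPx]
    simp [Cx.rev]
  refine ⟨⟨Pi1G hP, ?_, ?_, ?_⟩⟩
  · intro a b c d h
    obtain ⟨e1, e2, e3, e4⟩ := K.wf a b c d h
    by_cases ha : Pi1Reach K x (K.s a)
    · have w1 : K.IsWalk (K.s a) [(a, true), (b, true)] (K.t b) := ⟨rfl, e2.symm, rfl⟩
      have w2 : K.IsWalk (K.s a) [(c, true), (d, true)] (K.t b) := ⟨e1.symm, e3.symm, e4.symm⟩
      have h1 := Pi1_val hP _ _ _ ha w1
      have h2 := Pi1_val hP _ _ _ ha w2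
      have h3 : (Cx.cls _ (Pi1_loop hP ha w1) : K.Pi1 x) = Cx.cls _ (Pi1_loop hP ha w2) :=
        Cx.cls_eq_of_elem (Cx.Elem.sq a b c d h) _ _
      rw [h1, h2] at h3
      simpa [Cx.val] using h3
    · have hb : ¬ Pi1Reach K x (K.s b) := fun hb => ha (Pi1_reach_bwd (e2 ▸ hb))
      have hc : ¬ Pi1Reach K x (K.s c) := e1 ▸ ha
      have hd : ¬ Pi1Reach K x (K.s d) := fun hd => hc (Pi1_reach_bwd (e3 ▸ hd))
      rw [Pi1G_neg hP ha, Pi1G_neg hP hb, Pi1G_neg hP hc, Pi1G_neg hP hd]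
  · intro γ
    induction γ using Quot.ind with
    | mk p =>
      obtain ⟨w, hw⟩ := p
      exact ⟨w, hw, (hval w hw).symm⟩
  · intro L _ l hl
    let f : K.Pi1 x → L := Quot.lift (fun p => K.val l p.1) (by
      rintro p q ⟨u, v, r, r', h1, h2, h3⟩
      rw [h1, h2, Cx.val_append, Cx.val_append, Cx.val_append, Cx.val_append,
        Pi1_elem K l hl h3])
    have hf : ∀ (w : List (K.Ed × Bool)) (hw : K.IsWalk x w x),
        f (Cx.cls w hw) = K.val l w := fun w hw => rfl
    refine ⟨MonoidHom.mk' f ?_, ?_⟩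
    · intro p q
      induction p using Quot.ind with
      | mk p =>
        induction q using Quot.ind with
        | mk q =>
          exact Cx.val_append K l p.1 q.1
    · intro w hw
      rw [← hval w hw]
      exact hf w hw

/-- the canonical labelling -/
theorem exists_lab (K : Cx) (x : K.X) : ∃ g : K.Ed → K.Pi1 x, K.Lab g ∧
    ∀ (w : List (K.Ed × Bool)) (hw : K.IsWalk x w x), K.val g w = Cx.cls w hw := by
  classical
  obtain ⟨P, hPx, hP⟩ := Pi1_paths K x
  have hx : Pi1Reach K x x := ⟨[], rfl⟩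
  have hval : ∀ (w : List (K.Ed × Bool)) (hw : K.IsWalk x w x),
      (Cx.cls w hw : K.Pi1 x) = K.val (Pi1G hP) w := by
    intro w hw
    rw [← Pi1_val hP w x x hx hw]
    apply Pi1_congr
    rw [hPx]
    simp [Cx.rev]
  refine ⟨Pi1G hP, ?_, fun w hw => (hval w hw).symm⟩
  intro a b c d h
  obtain ⟨e1, e2, e3, e4⟩ := K.wf a b c d h
  by_cases ha : Pi1Reach K x (K.s a)
  · have w1 : K.IsWalk (K.s a) [(a, true), (b, true)] (K.t b) := ⟨rfl, e2.symm, rfl⟩
    have w2 : K.IsWalk (K.s a) [(c, true), (d, true)] (K.t b) := ⟨e1.symm, e3.symm, e4.symm⟩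
    have h1 := Pi1_val hP _ _ _ ha w1
    have h2 := Pi1_val hP _ _ _ ha w2
    have h3 : (Cx.cls _ (Pi1_loop hP ha w1) : K.Pi1 x) = Cx.cls _ (Pi1_loop hP ha w2) :=
      Cx.cls_eq_of_elem (Cx.Elem.sq a b c d h) _ _
    rw [h1, h2] at h3
    simpa [Cx.val] using h3
  · have hb : ¬ Pi1Reach K x (K.s b) := fun hb => ha (Pi1_reach_bwd (e2 ▸ hb))
    have hc : ¬ Pi1Reach K x (K.s c) := e1 ▸ ha
    have hd : ¬ Pi1Reach K x (K.s d) := fun hd => hc (Pi1_reach_bwd (e3 ▸ hd))
    rw [Pi1G_neg hP ha, Pi1G_neg hP hb, Pi1G_neg hP hc, Pi1G_neg hP hd]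

end GB
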