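import Pool.Agent.Helper95.GB.GT.Pi1

/-! # GB/GT/Base: change of the base point (stub, prove in place)

Proof.  Keep the labelling `D.g`.  Let `W = K.val D.g w`.
`surj` at `y`: for `γ : G` take a closed walk `w₁` at `x` with value `W * γ * W⁻¹`; then
`rev w ++ w₁ ++ w` is closed at `y` with value `γ`.
`univ` at `y`: let `φ` be the homomorphism of `D.univ L l hl` and `B = K.val l w`.  Define
`φ' γ = B⁻¹ * φ (W * γ * W⁻¹) * B`, a homomorphism.  For a closed walk `w'` at `y` the walk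
`w ++ w' ++ rev w` is closed at `x`, so `φ (W * val g w' * W⁻¹) = B * val l w' * B⁻¹`.
(`Cx.val_append`, `Cx.val_rev`, `Cx.isWalk_append`, `Cx.isWalk_rev`.)
-/

set_option autoImplicit false

namespace GB

theorem pid_base {K : Cx} {x y : K.X} {G : Type} [Group G] (D : PiD K x G)
    {w : List (K.Ed × Bool)} (h : K.IsWalk x w y) : Nonempty (PiD K y G) := by
  refine ⟨⟨D.g, D.sq, fun γ => ?_, fun L _ l hl => ?_⟩⟩
  · obtain ⟨w₁, h₁, h₂⟩ := D.surj (K.val D.g w * γ * (K.val D.g w)⁻¹)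
    refine ⟨K.rev w ++ w₁ ++ w, Cx.isWalk_append (Cx.isWalk_append (Cx.isWalk_rev h) h₁) h, ?_⟩
    rw [Cx.val_append, Cx.val_append, Cx.val_rev, h₂]
    group
  · obtain ⟨φ, hφ⟩ := D.univ L l hl
    refine ⟨((MulAut.conj (K.val l w)⁻¹).toMonoidHom.comp φ).comp
      (MulAut.conj (K.val D.g w)).toMonoidHom, fun w' hw' => ?_⟩
    have h1 := hφ (w ++ w' ++ K.rev w)
      (Cx.isWalk_append (Cx.isWalk_append h hw') (Cx.isWalk_rev h))
    rw [Cx.val_append, Cx.val_append, Cx.val_rev, Cx.val_append, Cx.val_append, Cx.val_rev] at h1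
    simp only [MonoidHom.comp_apply, MulEquiv.toMonoidHom_eq_coe, MonoidHom.coe_coe,
      MulAut.conj_apply]
    rw [h1]
    group

end GB
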