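import Pool.Agent.Helper95.GB.GT.Defs

/-! # GB/GT/Char: a character detecting a missing relator (stub, prove in place)

Proof.  Let `N = normalClosure {r ∈ K | r is a commutator}`; `N ≤ K`.  All commutators `[x,y]` of elements of `K` lie
in `K` and are commutators, so they lie in `N`, hence `Q = K ⧸ (N.subgroupOf K)` is an abelian group (build the
`CommGroup` instance, or use the abelianization of `K`: the classes of elements of `N` ...; simplest:
`Q` is a group in which all elements commute, make it a `CommGroup` with the same multiplication).  The class `q` of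
`r₀` is not `1`.  By `CharacterModule.exists_character_apply_ne_zero_of_ne_zero` (for the `ℤ`-module
`Additive Q`) there is a character `θ : Additive Q →+ QZ` with `θ q ≠ 0`.  Put
`χ r = θ (class of r)` for `r ∈ K` and `χ r = 0` otherwise, `R = K`.  `add` is clear; `com`: a commutator of elements
of `F` lying in `K` is in `N`, its class is `1`.
-/

set_option autoImplicit false

namespace GB

theorem exists_CE {F : Type} [Group F] (K : Subgroup F) [hK : K.Normal] (r₀ : F) (h₀ : r₀ ∈ K)
    (h₁ : r₀ ∉ Subgroup.normalClosure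
      {r | r ∈ K ∧ ∃ u v : F, r = u * v * u⁻¹ * v⁻¹}) :
    ∃ c : CE F, c.R = K ∧ c.χ r₀ ≠ 0 := by
  classical
  set S : Set F := {r | r ∈ K ∧ ∃ u v : F, r = u * v * u⁻¹ * v⁻¹} with hS
  set N : Subgroup F := Subgroup.normalClosure S with hN
  have hsub : S ⊆ (N : Set F) := Subgroup.subset_normalClosure
  haveI hNn : N.Normal := Subgroup.normalClosure_normal
  haveI : (N.subgroupOf K).Normal := inferInstance
  have hcomm : ∀ a b : (↥K ⧸ N.subgroupOf K), a * b = b * a := by
    intro a b
    induction a using QuotientGroup.induction_on with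
    | H x =>
      induction b using QuotientGroup.induction_on with
      | H y =>
        rw [← QuotientGroup.mk_mul, ← QuotientGroup.mk_mul, QuotientGroup.eq,
          Subgroup.mem_subgroupOf]
        apply hsub
        refine ⟨SetLike.coe_mem _, (y : F)⁻¹, (x : F)⁻¹, ?_⟩
        simp only [Subgroup.coe_mul, Subgroup.coe_inv, inv_inv]
        group
  letI : CommGroup (↥K ⧸ N.subgroupOf K) :=
    { (inferInstance : Group (↥K ⧸ N.subgroupOf K)) with mul_comm := hcomm }
  have hq : Additive.ofMul ((⟨r₀, h₀⟩ : ↥K) : ↥K ⧸ N.subgroupOf K) ≠ 0 := by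
    intro h
    have h2 : ((⟨r₀, h₀⟩ : ↥K) : ↥K ⧸ N.subgroupOf K) = 1 := h
    rw [QuotientGroup.eq_one_iff, Subgroup.mem_subgroupOf] at h2
    exact h₁ h2
  obtain ⟨θ, hθ⟩ := CharacterModule.exists_character_apply_ne_zero_of_ne_zero hq
  let χ : F → QZ := fun r => if h : r ∈ K then
    θ (Additive.ofMul ((⟨r, h⟩ : ↥K) : ↥K ⧸ N.subgroupOf K)) else 0
  have hχ : ∀ (r : F) (h : r ∈ K),
      χ r = θ (Additive.ofMul ((⟨r, h⟩ : ↥K) : ↥K ⧸ N.subgroupOf K)) := by
    intro r h
    simp only [χ, dif_pos h]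
  refine ⟨⟨K, hK, χ, ?_, ?_⟩, rfl, ?_⟩
  · intro r hr s hs
    rw [hχ r hr, hχ s hs, hχ (r * s) (K.mul_mem hr hs), ← map_add]
    rfl
  · intro a b hab
    rw [hχ _ hab]
    have h3 : (((⟨a * b * a⁻¹ * b⁻¹, hab⟩ : ↥K)) : ↥K ⧸ N.subgroupOf K) = 1 := by
      rw [QuotientGroup.eq_one_iff, Subgroup.mem_subgroupOf]
      exact hsub ⟨hab, a, b, rfl⟩
    rw [h3]
    exact map_zero θ
  · show χ r₀ ≠ 0
    rw [hχ r₀ h₀]
    exact hθ

end GB
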