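import Pool.Agent.Helper95.GB.GT.Torus

/-! # GB/GT/Cube: boundaries of cubes are killed (stub, prove in place)

`cc_anti`: `sqv f j i M = (sqv f i j M)⁻¹` (a computation in the group), use `CE.χ_inv`; if `vt i = vt j` both
sides are `0`.

`cube`: let `w = [((i,M),true)]` (from `s = M + δ be_i` to `t = M + δ ed_i`, where `be_i = S.be (S.vt i)`),
`w₁ = [((j, δ be_k), true), ((k, δ ed_j), true)]` and `w₂ = [((k, δ be_j), true), ((j, δ ed_k), true)]`, both from
`δ be_j + δ be_k` to `δ ed_j + δ ed_k`; `A = {S.vt i}`.  Then (`f[w;N] = S.cx.val f (sh N w)`)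
`f[w₁;N] * f[w₂;N]⁻¹ = sqv f j k N`.  Write `q N = sqv f j k N`.  The element of `torus` is
`τ(w,w₁) = a * (q t * b_t) * a'⁻¹ * (q s * b_s)⁻¹ = (a * q t * a⁻¹) * τ(w,w₂) * (q s)⁻¹`
with `b_N = f[w₂;N]`, `a = f[w;s']`, `a' = f[w;t']`.  So
`BB (ch w) (ch w₁) - BB (ch w) (ch w₂) = χ (q t) - χ (q s)`, and the left side is
`cc i j (M + δ be_k) + cc i k (M + δ ed_j) - cc i k (M + δ be_j) - cc i j (M + δ ed_k)`.

`CC_bd3`: `CC x = ∑ i, ∑ j, if o i < o j then ext (cc i j) (x i j) else 0`.  Expand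
`CC (bd3 y) = ∑_{o i < o j} ∑ k, ext (cc i j) (th k * y k i j)`.  Only triples with three different vertices
contribute.  Group the terms by the increasing rearrangement `p, q, r` (`o p < o q < o r`) of `i, j, k`:
`(i,j,k) = (q,r,p), (p,r,q), (p,q,r)` give
`ext (cc q r) (th p * Y) - ext (cc p r) (th q * Y) + ext (cc p q) (th r * Y)`, `Y = y p q r`
(`y q p r = - Y`, `y r p q = Y` by `Alt3`), which is `0`: it is additive in `Y` and for `Y = monomial M n` it is
`n` times `cube` (`ext_X_mul`).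
-/

set_option autoImplicit false

namespace GB

open MvPolynomial

namespace DG

variable {V J E F : Type} [Group F] [Fintype J]

theorem cc_anti (S : DG V J E) (c : CE F) (f : J × (E →₀ ℕ) → F) (hf : S.Lift c f) (i j : J)
    (M : E →₀ ℕ) : S.cc c f j i M = - S.cc c f i j M := by
  classical
  unfold cc
  by_cases h : S.vt i = S.vt j
  · rw [if_pos h.symm, if_pos h, neg_zero]
  · rw [if_neg (Ne.symm h), if_neg h, ← c.χ_inv _ (hf i j M h)]
    congr 1
    unfold sqv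
    group

private theorem cube_aux (c : CE F) (i00 i10 i01 i11 j00 j10 j01 j11 k00 k10 k01 k11 : F)
    (h1 : j00 * k01 * j01⁻¹ * k00⁻¹ ∈ c.R)
    (h2 : i10 * k11 * i11⁻¹ * k01⁻¹ ∈ c.R)
    (h3 : i00 * k10 * i01⁻¹ * k00⁻¹ ∈ c.R)
    (h4 : i01 * j11 * i11⁻¹ * j01⁻¹ ∈ c.R)
    (h5 : i00 * j10 * i10⁻¹ * j00⁻¹ ∈ c.R)
    (h6 : j10 * k11 * j11⁻¹ * k10⁻¹ ∈ c.R) :
    c.χ (j10 * k11 * j11⁻¹ * k10⁻¹) - c.χ (j00 * k01 * j01⁻¹ * k00⁻¹)
      - c.χ (i10 * k11 * i11⁻¹ * k01⁻¹) + c.χ (i00 * k10 * i01⁻¹ * k00⁻¹)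
      + c.χ (i01 * j11 * i11⁻¹ * j01⁻¹) - c.χ (i00 * j10 * i10⁻¹ * j00⁻¹) = 0 := by
  have key : i00 * (j10 * k11 * j11⁻¹ * k10⁻¹) * i00⁻¹ =
      (i00 * j10 * i10⁻¹ * j00⁻¹) * ((j00 * (i10 * k11 * i11⁻¹ * k01⁻¹) * j00⁻¹) *
        ((j00 * k01 * j01⁻¹ * k00⁻¹) * ((k00 * (i01 * j11 * i11⁻¹ * j01⁻¹)⁻¹ * k00⁻¹) *
          (i00 * k10 * i01⁻¹ * k00⁻¹)⁻¹))) := by
    group
  have m4 := c.R.inv_mem h4
  have m4' := c.conj_mem k00 _ m4
  have m3 := c.R.inv_mem h3
  have m2 := c.conj_mem j00 _ h2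
  have e := c.χ_conj i00 _ h6
  rw [key, c.add _ h5 _ (c.R.mul_mem m2 (c.R.mul_mem h1 (c.R.mul_mem m4' m3))),
    c.add _ m2 _ (c.R.mul_mem h1 (c.R.mul_mem m4' m3)),
    c.add _ h1 _ (c.R.mul_mem m4' m3), c.add _ m4' _ m3, c.χ_conj _ _ h2, c.χ_conj _ _ m4,
    c.χ_inv _ h4, c.χ_inv _ h3] at e
  rw [← e]
  abel

theorem cube (S : DG V J E) (c : CE F) (f : J × (E →₀ ℕ) → F) (hf : S.Lift c f) (i j k : J)
    (h1 : S.vt i ≠ S.vt j) (h2 : S.vt j ≠ S.vt k) (h3 : S.vt i ≠ S.vt k) (M : E →₀ ℕ) :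
    S.cc c f j k (M + δ (S.ed i)) - S.cc c f j k (M + δ (S.be (S.vt i)))
      - S.cc c f i k (M + δ (S.ed j)) + S.cc c f i k (M + δ (S.be (S.vt j)))
      + S.cc c f i j (M + δ (S.ed k)) - S.cc c f i j (M + δ (S.be (S.vt k))) = 0 := by
  classical
  have e1 := hf j k (M + δ (S.be (S.vt i))) h2
  have e2 := hf i k (M + δ (S.ed j)) h3
  have e3 := hf i k (M + δ (S.be (S.vt j))) h3
  have e4 := hf i j (M + δ (S.ed k)) h1
  have e5 := hf i j (M + δ (S.be (S.vt k))) h1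
  have e6 := hf j k (M + δ (S.ed i)) h2
  have E2 : S.sqv f i k (M + δ (S.ed j)) = f (i, M + δ (S.ed j) + δ (S.be (S.vt k))) *
      f (k, M + δ (S.ed i) + δ (S.ed j)) * (f (i, M + δ (S.ed j) + δ (S.ed k)))⁻¹ *
      (f (k, M + δ (S.be (S.vt i)) + δ (S.ed j)))⁻¹ := by
    unfold sqv
    rw [add_right_comm M (δ (S.ed j)) (δ (S.ed i)),
      add_right_comm M (δ (S.ed j)) (δ (S.be (S.vt i)))]
  have E3 : S.sqv f i k (M + δ (S.be (S.vt j))) = f (i, M + δ (S.be (S.vt j)) + δ (S.be (S.vt k))) *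
      f (k, M + δ (S.ed i) + δ (S.be (S.vt j))) * (f (i, M + δ (S.be (S.vt j)) + δ (S.ed k)))⁻¹ *
      (f (k, M + δ (S.be (S.vt i)) + δ (S.be (S.vt j))))⁻¹ := by
    unfold sqv
    rw [add_right_comm M (δ (S.be (S.vt j))) (δ (S.ed i)),
      add_right_comm M (δ (S.be (S.vt j))) (δ (S.be (S.vt i)))]
  have E4 : S.sqv f i j (M + δ (S.ed k)) = f (i, M + δ (S.be (S.vt j)) + δ (S.ed k)) *
      f (j, M + δ (S.ed i) + δ (S.ed k)) * (f (i, M + δ (S.ed j) + δ (S.ed k)))⁻¹ *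
      (f (j, M + δ (S.be (S.vt i)) + δ (S.ed k)))⁻¹ := by
    unfold sqv
    rw [add_right_comm M (δ (S.ed k)) (δ (S.be (S.vt j))),
      add_right_comm M (δ (S.ed k)) (δ (S.ed i)), add_right_comm M (δ (S.ed k)) (δ (S.ed j)),
      add_right_comm M (δ (S.ed k)) (δ (S.be (S.vt i)))]
  have E5 : S.sqv f i j (M + δ (S.be (S.vt k))) = f (i, M + δ (S.be (S.vt j)) + δ (S.be (S.vt k))) *
      f (j, M + δ (S.ed i) + δ (S.be (S.vt k))) * (f (i, M + δ (S.ed j) + δ (S.be (S.vt k))))⁻¹ *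
      (f (j, M + δ (S.be (S.vt i)) + δ (S.be (S.vt k))))⁻¹ := by
    unfold sqv
    rw [add_right_comm M (δ (S.be (S.vt k))) (δ (S.be (S.vt j))),
      add_right_comm M (δ (S.be (S.vt k))) (δ (S.ed i)),
      add_right_comm M (δ (S.be (S.vt k))) (δ (S.ed j)),
      add_right_comm M (δ (S.be (S.vt k))) (δ (S.be (S.vt i)))]
  have E1 : S.sqv f j k (M + δ (S.be (S.vt i))) = f (j, M + δ (S.be (S.vt i)) + δ (S.be (S.vt k))) *
      f (k, M + δ (S.be (S.vt i)) + δ (S.ed j)) * (f (j, M + δ (S.be (S.vt i)) + δ (S.ed k)))⁻¹ *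
      (f (k, M + δ (S.be (S.vt i)) + δ (S.be (S.vt j))))⁻¹ := rfl
  have E6 : S.sqv f j k (M + δ (S.ed i)) = f (j, M + δ (S.ed i) + δ (S.be (S.vt k))) *
      f (k, M + δ (S.ed i) + δ (S.ed j)) * (f (j, M + δ (S.ed i) + δ (S.ed k)))⁻¹ *
      (f (k, M + δ (S.ed i) + δ (S.be (S.vt j))))⁻¹ := rfl
  have c1 : S.cc c f j k (M + δ (S.be (S.vt i))) = c.χ (S.sqv f j k (M + δ (S.be (S.vt i)))) := by
    unfold cc
    rw [if_neg h2]
  have c6 : S.cc c f j k (M + δ (S.ed i)) = c.χ (S.sqv f j k (M + δ (S.ed i))) := by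
    unfold cc
    rw [if_neg h2]
  have c2 : S.cc c f i k (M + δ (S.ed j)) = c.χ (S.sqv f i k (M + δ (S.ed j))) := by
    unfold cc
    rw [if_neg h3]
  have c3 : S.cc c f i k (M + δ (S.be (S.vt j))) = c.χ (S.sqv f i k (M + δ (S.be (S.vt j)))) := by
    unfold cc
    rw [if_neg h3]
  have c4 : S.cc c f i j (M + δ (S.ed k)) = c.χ (S.sqv f i j (M + δ (S.ed k))) := by
    unfold cc
    rw [if_neg h1]
  have c5 : S.cc c f i j (M + δ (S.be (S.vt k))) = c.χ (S.sqv f i j (M + δ (S.be (S.vt k)))) := by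
    unfold cc
    rw [if_neg h1]
  rw [c1, c2, c3, c4, c5, c6]
  rw [E1] at e1 ⊢
  rw [E2] at e2 ⊢
  rw [E3] at e3 ⊢
  rw [E4] at e4 ⊢
  rw [E5] at e5 ⊢
  rw [E6] at e6 ⊢
  generalize f (i, M + δ (S.be (S.vt j)) + δ (S.be (S.vt k))) = i00 at *
  generalize f (i, M + δ (S.ed j) + δ (S.be (S.vt k))) = i10 at *
  generalize f (i, M + δ (S.be (S.vt j)) + δ (S.ed k)) = i01 at *
  generalize f (i, M + δ (S.ed j) + δ (S.ed k)) = i11 at *
  generalize f (j, M + δ (S.be (S.vt i)) + δ (S.be (S.vt k))) = j00 at *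
  generalize f (j, M + δ (S.ed i) + δ (S.be (S.vt k))) = j10 at *
  generalize f (j, M + δ (S.be (S.vt i)) + δ (S.ed k)) = j01 at *
  generalize f (j, M + δ (S.ed i) + δ (S.ed k)) = j11 at *
  generalize f (k, M + δ (S.be (S.vt i)) + δ (S.be (S.vt j))) = k00 at *
  generalize f (k, M + δ (S.ed i) + δ (S.be (S.vt j))) = k10 at *
  generalize f (k, M + δ (S.be (S.vt i)) + δ (S.ed j)) = k01 at *
  generalize f (k, M + δ (S.ed i) + δ (S.ed j)) = k11 at *
  exact cube_aux c i00 i10 i01 i11 j00 j10 j01 j11 k00 k10 k01 k11 e1 e2 e3 e4 e5 e6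

/-- evaluation of the cochain on 2-chains, `o` an injective numbering of the half-edges -/
noncomputable def CC (S : DG V J E) (c : CE F) (f : J × (E →₀ ℕ) → F) (o : J → ℕ)
    (x : J → J → MvPolynomial E ℤ) : QZ :=
  ∑ i, ∑ j, if o i < o j then ext (S.cc c f i j) (x i j) else 0

private theorem ext_th (S : DG V J E) (g : (E →₀ ℕ) → QZ) (k : J) (M : E →₀ ℕ) (n : ℤ) :
    ext g (S.th k * monomial M n) = n • (g (M + δ (S.ed k)) - g (M + δ (S.be (S.vt k)))) := by
  unfold th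
  rw [sub_mul, ext_sub, ext_X_mul, ext_X_mul, smul_sub]

private theorem cube_poly (S : DG V J E) (c : CE F) (f : J × (E →₀ ℕ) → F) (hf : S.Lift c f)
    (p q r : J) (h1 : S.vt p ≠ S.vt q) (h2 : S.vt q ≠ S.vt r) (h3 : S.vt p ≠ S.vt r)
    (Y : MvPolynomial E ℤ) :
    ext (S.cc c f q r) (S.th p * Y) - ext (S.cc c f p r) (S.th q * Y)
      + ext (S.cc c f p q) (S.th r * Y) = 0 := by
  classical
  induction Y using MvPolynomial.induction_on' with
  | monomial M n =>
    rw [ext_th, ext_th, ext_th, ← smul_sub, ← smul_add]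
    have h := S.cube c f hf p q r h1 h2 h3 M
    have e : S.cc c f q r (M + δ (S.ed p)) - S.cc c f q r (M + δ (S.be (S.vt p))) -
        (S.cc c f p r (M + δ (S.ed q)) - S.cc c f p r (M + δ (S.be (S.vt q)))) +
        (S.cc c f p q (M + δ (S.ed r)) - S.cc c f p q (M + δ (S.be (S.vt r)))) = 0 := by
      rw [← h]
      abel
    rw [e, smul_zero]
  | add P Q hP hQ =>
    rw [mul_add, mul_add, mul_add, ext_add, ext_add, ext_add]
    have e : ext (S.cc c f q r) (S.th p * P) + ext (S.cc c f q r) (S.th p * Q) -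
        (ext (S.cc c f p r) (S.th q * P) + ext (S.cc c f p r) (S.th q * Q)) +
        (ext (S.cc c f p q) (S.th r * P) + ext (S.cc c f p q) (S.th r * Q)) =
        (ext (S.cc c f q r) (S.th p * P) - ext (S.cc c f p r) (S.th q * P)
          + ext (S.cc c f p q) (S.th r * P)) +
        (ext (S.cc c f q r) (S.th p * Q) - ext (S.cc c f p r) (S.th q * Q)
          + ext (S.cc c f p q) (S.th r * Q)) := by abel
    rw [e, hP, hQ, add_zero]

theorem CC_bd3 (S : DG V J E) (c : CE F) (f : J × (E →₀ ℕ) → F) (hf : S.Lift c f) (o : J → ℕ)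
    (ho : Function.Injective o) (y : J → J → J → MvPolynomial E ℤ) (hy : Alt3 y)
    (hy' : ∀ i j k, S.vt i = S.vt j ∨ S.vt j = S.vt k ∨ S.vt i = S.vt k → y i j k = 0) :
    S.CC c f o (S.bd3 y) = 0 := by
  classical
  unfold CC bd3
  set U : J → J → J → QZ := fun i j k => ext (S.cc c f i j) (S.th k * y k i j) with hU
  have hU0 : ∀ i j k, y k i j = 0 → U i j k = 0 := by
    intro i j k h
    rw [hU]
    simp only
    rw [h, mul_zero, ext_zero]
  have e1 : ∀ i j, (if o i < o j then ext (S.cc c f i j) (∑ k, S.th k * y k i j) else 0) =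
      ∑ k, (if o k < o i ∧ o i < o j then U i j k else 0) +
        ∑ k, (if o i < o k ∧ o k < o j then U i j k else 0) +
        ∑ k, (if o i < o j ∧ o j < o k then U i j k else 0) := by
    intro i j
    rw [← Finset.sum_add_distrib, ← Finset.sum_add_distrib]
    by_cases hij : o i < o j
    · rw [if_pos hij, ext_sum]
      refine Finset.sum_congr rfl fun k _ => ?_
      change U i j k = _
      by_cases hki : k = i
      · have h0 : U i j k = 0 := hU0 i j k (by rw [hki]; exact hy' i i j (Or.inl rfl))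
        rw [h0]
        simp
      by_cases hkj : k = j
      · have h0 : U i j k = 0 := hU0 i j k (by rw [hkj]; exact hy' j i j (Or.inr (Or.inr rfl)))
        rw [h0]
        simp
      have h1 : o k ≠ o i := fun h => hki (ho h)
      have h2 : o k ≠ o j := fun h => hkj (ho h)
      rcases lt_or_gt_of_ne h1 with h3 | h3
      · rw [if_pos ⟨h3, hij⟩, if_neg (by omega), if_neg (by omega), add_zero, add_zero]
      · rcases lt_or_gt_of_ne h2 with h4 | h4
        · rw [if_neg (by omega), if_pos ⟨h3, h4⟩, if_neg (by omega), zero_add, add_zero]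
        · rw [if_neg (by omega), if_neg (by omega), if_pos ⟨hij, h4⟩, zero_add, zero_add]
    · rw [if_neg hij]
      symm
      apply Finset.sum_eq_zero
      intro k _
      rw [if_neg (by omega), if_neg (by omega), if_neg (by omega), add_zero, add_zero]
  have e2 : (∑ i, ∑ j, if o i < o j then ext (S.cc c f i j) (∑ k, S.th k * y k i j) else 0) =
      ∑ p, ∑ q, ∑ r, (if o p < o q ∧ o q < o r then U q r p + U p r q + U p q r else 0) := by
    rw [Finset.sum_congr rfl fun i _ => Finset.sum_congr rfl fun j _ => e1 i j]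
    simp only [Finset.sum_add_distrib]
    have a1 : (∑ i, ∑ j, ∑ k, if o k < o i ∧ o i < o j then U i j k else 0) =
        ∑ p, ∑ q, ∑ r, (if o p < o q ∧ o q < o r then U q r p else 0) := by
      rw [Finset.sum_congr rfl fun i _ => Finset.sum_comm]
      rw [Finset.sum_comm]
    have a2 : (∑ i, ∑ j, ∑ k, if o i < o k ∧ o k < o j then U i j k else 0) =
        ∑ p, ∑ q, ∑ r, (if o p < o q ∧ o q < o r then U p r q else 0) := by
      rw [Finset.sum_congr rfl fun i _ => Finset.sum_comm]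
    rw [a1, a2, ← Finset.sum_add_distrib, ← Finset.sum_add_distrib]
    refine Finset.sum_congr rfl fun p _ => ?_
    rw [← Finset.sum_add_distrib, ← Finset.sum_add_distrib]
    refine Finset.sum_congr rfl fun q _ => ?_
    rw [← Finset.sum_add_distrib, ← Finset.sum_add_distrib]
    refine Finset.sum_congr rfl fun r _ => ?_
    split_ifs <;> simp
  rw [e2]
  apply Finset.sum_eq_zero
  intro p _
  apply Finset.sum_eq_zero
  intro q _
  apply Finset.sum_eq_zero
  intro r _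
  split_ifs with hpqr
  · have b1 : y q p r = - y p q r := hy.1 p q r
    have b2 : y r p q = y p q r := by
      rw [hy.1 p r q, hy.2 p q r, neg_neg]
    have c1 : U q r p = ext (S.cc c f q r) (S.th p * y p q r) := rfl
    have c2 : U p r q = - ext (S.cc c f p r) (S.th q * y p q r) := by
      rw [hU]
      simp only
      rw [b1, mul_neg, ext_neg]
    have c3 : U p q r = ext (S.cc c f p q) (S.th r * y p q r) := by
      rw [hU]
      simp only
      rw [b2]
    rw [c1, c2, c3]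
    by_cases h1 : S.vt p = S.vt q
    · rw [hy' p q r (Or.inl h1)]
      simp [ext_zero]
    by_cases h2 : S.vt q = S.vt r
    · rw [hy' p q r (Or.inr (Or.inl h2))]
      simp [ext_zero]
    by_cases h3 : S.vt p = S.vt r
    · rw [hy' p q r (Or.inr (Or.inr h3))]
      simp [ext_zero]
    rw [← sub_eq_add_neg]
    exact cube_poly S c f hf p q r h1 h2 h3 (y p q r)
  · rfl

end DG

end GB
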