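import Pool.Agent.Helper95.GB.GT.Wedge
import Pool.Agent.Helper95.GB.GT.Cube

/-! # GB/GT/Coch: the 2-cochain is a coboundary (stub, prove in place)

Proof.  Choose an injective `o : J → ℕ` (`Fintype.equivFin`).  `CC` (file `Cube`) is additive in `x`.  Let `𝒮` be
the additive subgroup `{x | CC x = 0}` of `J → J → MvPolynomial E ℤ`.
* `bd3 y ∈ 𝒮` for the `y` of `PI`: `CC_bd3`.
* `wedge z z' ∈ 𝒮` for disjoint 1-cycles: `CC (wedge z z') = ∑_{o i < o j} ext (cc i j) (z i * z' j - z' i * z j)`;
  by `cc_anti`, `- ext (cc i j) (z' i * z j) = ext (cc j i) (z j * z' i)`, so this is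
  `∑_{o i < o j} ext (cc i j) (z i * z' j) + ∑_{o i < o j} ext (cc j i) (z j * z' i) = BB z z'` (the diagonal terms
  of `BB` vanish since `cc i i = 0`), which is `0` by `BB_zero`.
So by `hPI`: `CC x = 0` for all `x` in
`C2 = {x | Alt2 x ∧ (∀ i j, vt i = vt j → x i j = 0)}` with `bd2 x = 0`.
`bd2` is an additive map from the group `C2` to `J → MvPolynomial E ℤ`; so `CC` factors through the image
`B` of `bd2` (a subgroup), and since `QZ` is divisible it extends to an additive map
`β : (J → MvPolynomial E ℤ) → QZ` with `CC x = β (bd2 x)` on `C2` (Mathlib: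
`CharacterModule.dual_surjective_of_injective` for the inclusion of the `ℤ`-submodule `B`; `QZ` is
`AddCircle (1 : ℚ)`, so an additive map to `QZ` is a `CharacterModule` element).
Put `b j M = β (Pi.single j (monomial M 1))`.  For `vt i ≠ vt j`, `o i < o j`: let `x` be `monomial M 1` at `(i,j)`,
minus that at `(j,i)`, zero elsewhere.  Then `x ∈ C2`, `CC x = cc i j M = χ (sqv f i j M)` and
`bd2 x = Pi.single j (th i * monomial M 1) - Pi.single i (th j * monomial M 1)`, so
`χ (sqv f i j M) = b j (M + δ ed_i) - b j (M + δ be_i) - b i (M + δ ed_j) + b i (M + δ be_j)`.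
For `o j < o i` use `cc_anti` (both sides are antisymmetric in `i, j`).
-/

set_option autoImplicit false

namespace GB

open MvPolynomial

theorem ext_of_neg {E A : Type} [AddCommGroup A] (c c' : (E →₀ ℕ) → A) (h : ∀ M, c' M = - c M)
    (r : MvPolynomial E ℤ) : ext c' r = - ext c r := by
  rw [ext, ext, ← Finset.sum_neg_distrib]
  refine Finset.sum_congr rfl (fun M _ => ?_)
  rw [h, smul_neg]

namespace DG

variable {V J E F : Type} [Group F] [Fintype J]

theorem CC_add (S : DG V J E) (c : CE F) (f : J × (E →₀ ℕ) → F) (o : J → ℕ)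
    (x y : J → J → MvPolynomial E ℤ) : S.CC c f o (x + y) = S.CC c f o x + S.CC c f o y := by
  rw [CC, CC, CC, ← Finset.sum_add_distrib]
  refine Finset.sum_congr rfl (fun i _ => ?_)
  rw [← Finset.sum_add_distrib]
  refine Finset.sum_congr rfl (fun j _ => ?_)
  by_cases h : o i < o j
  · rw [if_pos h, if_pos h, if_pos h, Pi.add_apply, Pi.add_apply, ext_add]
  · rw [if_neg h, if_neg h, if_neg h, add_zero]

/-- `CC` as a homomorphism -/
noncomputable def CCh (S : DG V J E) (c : CE F) (f : J × (E →₀ ℕ) → F) (o : J → ℕ) :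
    (J → J → MvPolynomial E ℤ) →+ QZ :=
  AddMonoidHom.mk' (S.CC c f o) (S.CC_add c f o)

theorem CCh_apply (S : DG V J E) (c : CE F) (f : J × (E →₀ ℕ) → F) (o : J → ℕ)
    (x : J → J → MvPolynomial E ℤ) : S.CCh c f o x = S.CC c f o x := rfl

omit [Fintype J] in
theorem cc_self (S : DG V J E) (c : CE F) (f : J × (E →₀ ℕ) → F) (i : J) (r : MvPolynomial E ℤ) :
    ext (S.cc c f i i) r = 0 := by
  rw [ext]
  refine Finset.sum_eq_zero (fun M _ => ?_)
  rw [DG.cc, if_pos rfl, smul_zero]

theorem CC_wedge (S : DG V J E) (c : CE F) (f : J × (E →₀ ℕ) → F) (hf : S.Lift c f) (o : J → ℕ)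
    (ho : Function.Injective o) (z z' : J → MvPolynomial E ℤ) :
    S.CC c f o (wedge z z') = S.BB c f z z' := by
  have h1 : S.CC c f o (wedge z z') =
      ∑ i, ∑ j, (if o i < o j then ext (S.cc c f i j) (z i * z' j) else 0) +
      ∑ i, ∑ j, (if o i < o j then ext (S.cc c f j i) (z j * z' i) else 0) := by
    rw [CC, ← Finset.sum_add_distrib]
    refine Finset.sum_congr rfl (fun i _ => ?_)
    rw [← Finset.sum_add_distrib]
    refine Finset.sum_congr rfl (fun j _ => ?_)
    by_cases h : o i < o j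
    · rw [if_pos h, if_pos h, if_pos h, wedge, ext_sub, sub_eq_add_neg, mul_comm (z' i) (z j),
        ext_of_neg (S.cc c f i j) (S.cc c f j i) (fun M => S.cc_anti c f hf i j M)]
    · rw [if_neg h, if_neg h, if_neg h, add_zero]
  have h2 : ∑ i, ∑ j, (if o i < o j then ext (S.cc c f j i) (z j * z' i) else 0) =
      ∑ i, ∑ j, (if o j < o i then ext (S.cc c f i j) (z i * z' j) else 0) := Finset.sum_comm
  rw [h1, h2, BB, ← Finset.sum_add_distrib]
  refine Finset.sum_congr rfl (fun i _ => ?_)
  rw [← Finset.sum_add_distrib]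
  refine Finset.sum_congr rfl (fun j _ => ?_)
  rcases lt_trichotomy (o i) (o j) with h | h | h
  · rw [if_pos h, if_neg (lt_asymm h), add_zero]
  · have hij := ho h
    subst hij
    rw [if_neg (lt_irrefl _), add_zero, S.cc_self]
  · rw [if_neg (lt_asymm h), if_pos h, zero_add]

/-- the group of 2-chains -/
def C2 (S : DG V J E) : AddSubgroup (J → J → MvPolynomial E ℤ) where
  carrier := {x | Alt2 x ∧ ∀ i j, S.vt i = S.vt j → x i j = 0}
  add_mem' := by
    rintro x y ⟨hx, hx'⟩ ⟨hy, hy'⟩
    refine ⟨fun i j => ?_, fun i j h => ?_⟩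
    · rw [Pi.add_apply, Pi.add_apply, Pi.add_apply, Pi.add_apply, hx i j, hy i j, neg_add]
    · rw [Pi.add_apply, Pi.add_apply, hx' i j h, hy' i j h, add_zero]
  zero_mem' := ⟨fun i j => by simp, fun i j h => by simp⟩
  neg_mem' := by
    rintro x ⟨hx, hx'⟩
    refine ⟨fun i j => ?_, fun i j h => ?_⟩
    · rw [Pi.neg_apply, Pi.neg_apply, Pi.neg_apply, Pi.neg_apply, hx i j]
    · rw [Pi.neg_apply, Pi.neg_apply, hx' i j h, neg_zero]

/-- `bd2` as a homomorphism -/
noncomputable def bd2h (S : DG V J E) : (J → J → MvPolynomial E ℤ) →+ (J → MvPolynomial E ℤ) :=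
  AddMonoidHom.mk' S.bd2 (by
    intro x y
    funext j
    rw [Pi.add_apply, bd2, bd2, bd2, ← Finset.sum_add_distrib]
    refine Finset.sum_congr rfl (fun i _ => ?_)
    rw [Pi.add_apply, Pi.add_apply, mul_add])

theorem bd2h_apply (S : DG V J E) (x : J → J → MvPolynomial E ℤ) : S.bd2h x = S.bd2 x := rfl

end DG

/-- an additive map which vanishes on the kernel of another one factors through it, up to the
divisible group `QZ` -/
theorem exists_factor {A B : Type} [AddCommGroup A] [AddCommGroup B] (d : A →+ B) (χ : A →+ QZ)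
    (h : ∀ x, d x = 0 → χ x = 0) : ∃ β : B →+ QZ, ∀ x, χ x = β (d x) := by
  have h1 : d.rangeRestrict.ker ≤ χ.ker := by
    intro x hx
    rw [AddMonoidHom.mem_ker] at hx ⊢
    exact h x (congrArg Subtype.val hx)
  let g : d.range →+ QZ :=
    d.rangeRestrict.liftOfSurjective d.rangeRestrict_surjective ⟨χ, h1⟩
  have hg : ∀ x, g (d.rangeRestrict x) = χ x := fun x =>
    AddMonoidHom.liftOfRightInverse_comp_apply _ _ _ ⟨χ, h1⟩ x
  obtain ⟨β, hβ⟩ := CharacterModule.dual_surjective_of_injective
    (d.range.subtype.toIntLinearMap) (fun a b hab => Subtype.ext hab) g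
  refine ⟨β, fun x => ?_⟩
  rw [← hg x, ← hβ]
  rfl

theorem DG.exists_b {V J E F : Type} [Group F] [Fintype J] (S : DG V J E) (hPI : S.PI) (c : CE F)
    (f : J × (E →₀ ℕ) → F) (hf : S.Lift c f) :
    ∃ b : J → (E →₀ ℕ) → QZ, ∀ i j M, S.vt i ≠ S.vt j →
      c.χ (S.sqv f i j M) = b i (M + δ (S.be (S.vt j))) + b j (M + δ (S.ed i))
        - b i (M + δ (S.ed j)) - b j (M + δ (S.be (S.vt i))) := by
  classical
  obtain ⟨o, ho⟩ : ∃ o : J → ℕ, Function.Injective o :=
    ⟨fun j => (Fintype.equivFin J j : ℕ), fun a b h =>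
      (Fintype.equivFin J).injective (Fin.val_injective h)⟩
  have hS := hPI (S.CCh c f o).ker
    (fun y hy hy' => by
      rw [AddMonoidHom.mem_ker, DG.CCh_apply]
      exact S.CC_bd3 c f hf o ho y hy hy')
    (fun z z' hz hz' hd => by
      rw [AddMonoidHom.mem_ker, DG.CCh_apply, S.CC_wedge c f hf o ho]
      exact S.BB_zero c f hf z z' hz hz' hd)
  obtain ⟨β, hβ⟩ := exists_factor (S.bd2h.comp S.C2.subtype) ((S.CCh c f o).comp S.C2.subtype) (by
    rintro ⟨x, hx, hx'⟩ h0
    exact hS x hx hx' (fun j => congrFun h0 j))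
  have key : ∀ i j M, S.vt i ≠ S.vt j → o i < o j → c.χ (S.sqv f i j M) =
      β (Pi.single i (monomial (M + δ (S.be (S.vt j))) 1))
        + β (Pi.single j (monomial (M + δ (S.ed i)) 1))
        - β (Pi.single i (monomial (M + δ (S.ed j)) 1))
        - β (Pi.single j (monomial (M + δ (S.be (S.vt i))) 1)) := by
    intro i j M hij hoij
    have hne : i ≠ j := fun h => hij (by rw [h])
    let x : J → J → MvPolynomial E ℤ := fun a a' =>
      if a = i ∧ a' = j then monomial M 1 else if a = j ∧ a' = i then - monomial M 1 else 0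
    have hxd : ∀ a a', x a a' =
      if a = i ∧ a' = j then monomial M 1 else if a = j ∧ a' = i then - monomial M 1 else 0 :=
      fun _ _ => rfl
    have xij : x i j = monomial M 1 := if_pos ⟨rfl, rfl⟩
    have xji : x j i = - monomial M 1 := by
      rw [hxd, if_neg (fun h => hne h.1.symm)]
      exact if_pos ⟨rfl, rfl⟩
    have x0 : ∀ a a', ¬ (a = i ∧ a' = j) → ¬ (a = j ∧ a' = i) → x a a' = 0 := by
      intro a a' k1 k2
      rw [hxd, if_neg k1, if_neg k2]
    have hx : x ∈ S.C2 := by
      refine ⟨fun a a' => ?_, fun a a' h => ?_⟩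
      · rw [hxd, hxd]
        by_cases h1 : a = i ∧ a' = j
        · have h2 : ¬ (a' = i ∧ a = j) := fun h => hne (h1.1.symm.trans h.2)
          rw [if_pos h1, if_neg h2, if_pos ⟨h1.2, h1.1⟩]
        · by_cases h2 : a = j ∧ a' = i
          · rw [if_pos ⟨h2.2, h2.1⟩, if_neg h1, if_pos h2, neg_neg]
          · rw [if_neg (fun h => h2 ⟨h.2, h.1⟩), if_neg (fun h => h1 ⟨h.2, h.1⟩), if_neg h1,
              if_neg h2, neg_zero]
      · rw [hxd, if_neg, if_neg]
        · rintro ⟨rfl, rfl⟩
          exact hij h.symm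
        · rintro ⟨rfl, rfl⟩
          exact hij h
    have h1 := hβ ⟨x, hx⟩
    have h2 : ((S.CCh c f o).comp S.C2.subtype) ⟨x, hx⟩ = c.χ (S.sqv f i j M) := by
      change S.CC c f o x = _
      rw [DG.CC, Finset.sum_eq_single i, Finset.sum_eq_single j]
      · rw [if_pos hoij, xij, ext_monomial, one_smul, DG.cc, if_neg hij]
      · intro a _ ha
        rw [x0 i a (fun h => ha h.2) (fun h => hne h.1), ext_zero, ite_self]
      · intro h
        exact absurd (Finset.mem_univ _) h
      · intro a _ ha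
        refine Finset.sum_eq_zero (fun a' _ => ?_)
        by_cases h3 : a = j ∧ a' = i
        · rw [h3.1, h3.2, if_neg (lt_asymm hoij)]
        · rw [x0 a a' (fun h => ha h.1) h3, ext_zero, ite_self]
      · intro h
        exact absurd (Finset.mem_univ _) h
    have h3 : (S.bd2h.comp S.C2.subtype) ⟨x, hx⟩ =
        Pi.single i (monomial (M + δ (S.be (S.vt j))) 1)
        + Pi.single j (monomial (M + δ (S.ed i)) 1)
        - Pi.single i (monomial (M + δ (S.ed j)) 1)
        - Pi.single j (monomial (M + δ (S.be (S.vt i))) 1) := by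
      change S.bd2 x = _
      have hth : ∀ k : J, S.th k * (monomial M (1 : ℤ) : MvPolynomial E ℤ) =
          monomial (M + δ (S.ed k)) 1 - monomial (M + δ (S.be (S.vt k))) 1 := by
        intro k
        rw [DG.th, sub_mul, X, X, monomial_mul, monomial_mul, one_mul, add_comm (Finsupp.single _ 1) M,
          add_comm (Finsupp.single _ 1) M]
      funext a
      rw [DG.bd2]
      have e0 : ∑ k, S.th k * x k a = S.th i * x i a + S.th j * x j a := by
        rw [← Finset.sum_subset (Finset.subset_univ {i, j}), Finset.sum_pair hne]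
        intro k _ hk
        rw [x0, mul_zero]
        · rintro ⟨rfl, _⟩
          exact hk (by simp)
        · rintro ⟨rfl, _⟩
          exact hk (by simp)
      rw [e0]
      simp only [Pi.sub_apply, Pi.add_apply]
      by_cases ha : a = j
      · rw [ha, xij, x0 j j (fun h => hne h.1.symm) (fun h => hne h.2.symm),
          mul_zero, add_zero, hth, Pi.single_eq_same, Pi.single_eq_same,
          Pi.single_eq_of_ne hne.symm, Pi.single_eq_of_ne hne.symm, zero_add, sub_zero]
      · by_cases ha' : a = i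
        · rw [ha', xji, x0 i i (fun h => hne h.2) (fun h => hne h.1), mul_neg, hth,
            Pi.single_eq_same, Pi.single_eq_same,
            Pi.single_eq_of_ne hne, Pi.single_eq_of_ne hne]
          ring
        · rw [x0 i a (fun h => ha h.2) (fun h => ha' h.2), x0 j a (fun h => ha h.2)
            (fun h => ha' h.2), Pi.single_eq_of_ne ha, Pi.single_eq_of_ne ha,
            Pi.single_eq_of_ne ha', Pi.single_eq_of_ne ha']
          ring
    rw [h2, h3, map_sub, map_sub, map_add] at h1
    exact h1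
  refine ⟨fun j M => β (Pi.single j (monomial M 1)), fun i j M hij => ?_⟩
  rcases lt_trichotomy (o i) (o j) with h | h | h
  · exact key i j M hij h
  · exact absurd (congrArg S.vt (ho h)) hij
  · have h1 := key j i M hij.symm h
    have h2 := S.cc_anti c f hf i j M
    rw [DG.cc, DG.cc, if_neg hij, if_neg hij.symm, h1] at h2
    have h3 : c.χ (S.sqv f i j M) = - - c.χ (S.sqv f i j M) := (neg_neg _).symm
    rw [h3, ← h2]
    abel

end GB
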