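import Pool.Agent.Helper95.GB.GT.Defs

/-! # GB/GT/Free: free groups (stub, prove in place)

`ker_le_commutator`: let `r` be in the kernel of `FreeGroup.lift T`.  Its class in
`FreeAbelianGroup ι = Additive (Abelianization (FreeGroup ι))` corresponds under
`FreeAbelianGroup.equivFinsupp` to `n : ι →₀ ℤ` (exponent sums).  For `φ : G →* Multiplicative ℤ` the composition
`φ ∘ lift T` is the homomorphism `of i ↦ φ (T i)`, it factors through `FreeAbelianGroup ι`, so
`toAdd (φ (lift T r)) = n.sum (fun i k => k * toAdd (φ (T i)))` (check on generators, both sides are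
homomorphisms in `r`).  So this is `0` for all `φ`, `n = 0` by `Ind`, and `r` is in the commutator subgroup.

`genus1_of`: if the kernel of `lift T` is the normal closure of the set `R` of all commutators lying in the
kernel, then `PresentedGroup R ≃* FreeGroup ι ⧸ ker ≃* G` (first isomorphism theorem; `lift T` is surjective
since `closure (range T) = ⊤`).
-/

set_option autoImplicit false

namespace GB

/-- the exponent sums -/
private noncomputable def expSum (ι : Type) : FreeGroup ι →* Multiplicative (ι →₀ ℤ) :=
  FreeGroup.lift (fun i => Multiplicative.ofAdd (Finsupp.single i 1))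

private theorem expSum_eq {ι : Type} (r : FreeGroup ι) :
    Multiplicative.toAdd (expSum ι r) = FreeAbelianGroup.toFinsupp
      ((Additive.ofMul (Abelianization.of r) : Additive (Abelianization (FreeGroup ι))) :
        FreeAbelianGroup ι) := by
  have h : expSum ι = MonoidHom.mk' (fun r => Multiplicative.ofAdd (FreeAbelianGroup.toFinsupp
      ((Additive.ofMul (Abelianization.of r) : Additive (Abelianization (FreeGroup ι))) :
        FreeAbelianGroup ι))) (by
      intro a b
      rw [map_mul, ofMul_mul, ← ofAdd_add]
      exact congrArg Multiplicative.ofAdd (map_add FreeAbelianGroup.toFinsupp _ _)) := by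
    refine FreeGroup.ext_hom _ _ fun i => ?_
    have h1 : expSum ι (FreeGroup.of i) = Multiplicative.ofAdd (Finsupp.single i 1) := by
      rw [expSum, FreeGroup.lift_apply_of]
    rw [h1]
    exact congrArg Multiplicative.ofAdd (FreeAbelianGroup.toFinsupp_of i).symm
  exact congrArg Multiplicative.toAdd (DFunLike.congr_fun h r)

private theorem mem_commutator_of_expSum {ι : Type} (r : FreeGroup ι) (h : expSum ι r = 1) :
    r ∈ commutator (FreeGroup ι) := by
  have h1 := expSum_eq r
  rw [h, toAdd_one] at h1
  have h2 : FreeAbelianGroup.equivFinsupp ι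
      ((Additive.ofMul (Abelianization.of r) : Additive (Abelianization (FreeGroup ι))) :
        FreeAbelianGroup ι) = 0 := h1.symm
  rw [EmbeddingLike.map_eq_zero_iff] at h2
  have h3 : Abelianization.of r = 1 := h2
  rw [← Abelianization.ker_of]
  exact h3

theorem ker_le_commutator {ι G : Type} [Group G] (T : ι → G) (hT : Ind T) :
    (FreeGroup.lift T).ker ≤ commutator (FreeGroup ι) := by
  intro r hr
  refine mem_commutator_of_expSum r ?_
  have key : Multiplicative.toAdd (expSum ι r) = 0 := by
    refine hT _ fun φ => ?_
    have h : φ.comp (FreeGroup.lift T) = (AddMonoidHom.toMultiplicative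
        (Finsupp.liftAddHom (fun i : ι =>
          AddMonoidHom.mulRight (Multiplicative.toAdd (φ (T i)))))).comp (expSum ι) := by
      refine FreeGroup.ext_hom _ _ fun i => ?_
      rw [MonoidHom.comp_apply, FreeGroup.lift_apply_of, MonoidHom.comp_apply, expSum,
        FreeGroup.lift_apply_of]
      have h1 : (AddMonoidHom.toMultiplicative (Finsupp.liftAddHom (fun i : ι =>
          AddMonoidHom.mulRight (Multiplicative.toAdd (φ (T i))))))
          (Multiplicative.ofAdd (Finsupp.single i (1 : ℤ))) = Multiplicative.ofAdd
          (Finsupp.liftAddHom (fun i : ι =>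
          AddMonoidHom.mulRight (Multiplicative.toAdd (φ (T i)))) (Finsupp.single i (1 : ℤ))) := rfl
      rw [h1, Finsupp.liftAddHom_apply_single]
      simp
    have h2 := DFunLike.congr_fun h r
    rw [MonoidHom.comp_apply, (MonoidHom.mem_ker).1 hr, map_one] at h2
    exact (congrArg Multiplicative.toAdd h2).symm
  exact key

theorem genus1_of {ι G : Type} [Group G] (T : ι → G) (hg : Subgroup.closure (Set.range T) = ⊤)
    (h : (FreeGroup.lift T).ker ≤ Subgroup.normalClosure
      {r | r ∈ (FreeGroup.lift T).ker ∧ ∃ u v : FreeGroup ι, r = u * v * u⁻¹ * v⁻¹}) :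
    Genus1 G := by
  refine ⟨ι, {r | r ∈ (FreeGroup.lift T).ker ∧ ∃ u v : FreeGroup ι, r = u * v * u⁻¹ * v⁻¹},
    fun r hr => hr.2, ?_⟩
  have he : Subgroup.normalClosure
      {r | r ∈ (FreeGroup.lift T).ker ∧ ∃ u v : FreeGroup ι, r = u * v * u⁻¹ * v⁻¹} =
      (FreeGroup.lift T).ker :=
    le_antisymm (Subgroup.normalClosure_le_normal fun r hr => hr.1) h
  have hs : Function.Surjective (FreeGroup.lift T) := by
    rw [← MonoidHom.range_eq_top, FreeGroup.range_lift_eq_closure, hg]
  exact ⟨(QuotientGroup.quotientMulEquivOfEq he).trans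
    (QuotientGroup.quotientKerEquivOfSurjective _ hs)⟩

end GB
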