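import Pool.Agent.Helper95.GB.GT.Pi1

/-! # GB/GT/Split: a coboundary gives an extension of the character (stub, prove in place)

Proof.  Let `D' = Multiplicative QZ` and let `N` be the subgroup `{(r, ofAdd (- χ r)) | r ∈ c.R}` of
`F × D'` (a subgroup by `CE.add`, `CE.χ_inv`; normal by `CE.conj_mem`, `CE.χ_conj`, `D'` is abelian).  Let
`L = (F × D') ⧸ N` and `l : S.cx.Ed → L`, `l (j,M) = [(f (j,M), ofAdd (- b j M))]`.
`Lab`: for a 2-cell `a = (i, M + δ be_j), b' = (j, M + δ ed_i), c' = (j, M + δ be_i), d = (i, M + δ ed_j)` one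
has `l a * l b' * (l d)⁻¹ * (l c')⁻¹ = [(sqv f i j M, ofAdd (- χ (sqv f i j M)))] = 1` by `hb` (and
`sqv f i j M ∈ c.R` because `π` kills it: `D.sq`).
So `D.univ L l` gives `φ : G →* L` with `φ (val g w) = val l w` for closed walks `w` at `x₀`.
The projection `F × D' → G`, `(a, d) ↦ π a`, kills `N`, so it induces `ρ : L →* G`, `ρ (l a) = g a`; hence
`ρ (φ γ) = γ` for all `γ : G` (by `D.surj`: `γ = val g w`, and `ρ (val l w) = val g w`).
For `a : F` the element `[(a, 1)] * (φ (π a))⁻¹` is in the kernel of `ρ`, which is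
`{[(r, d)] | r ∈ c.R} = {[(1, d)]}` (because `[(r, d)] = [(1, ofAdd (χ r) * d)]`).  The map `D' → L`,
`d ↦ [(1, d)]`, is injective (`(1, d) ∈ N` forces `d = 1`, `χ 1 = 0`) with central image.  So there is a unique
`ψ a : D'` with `[(a, 1)] = [(1, ψ a)] * φ (π a)`, and `ψ` is a homomorphism since `[(1, ψ a)]` is central.
For `r ∈ c.R`: `π r = 1`, `[(r, 1)] = [(1, ofAdd (χ r))]`, so `ψ r = ofAdd (χ r)`.
-/

set_option autoImplicit false

namespace GB

theorem Cx.map_val {K : Cx} {L G : Type} [Group L] [Group G] (ρ : L →* G) (l : K.Ed → L)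
    (g : K.Ed → G) (h : ∀ a, ρ (l a) = g a) (w : List (K.Ed × Bool)) :
    ρ (K.val l w) = K.val g w := by
  induction w with
  | nil => exact map_one ρ
  | cons a w ih =>
    rcases a with ⟨a, _ | _⟩
    · simp only [Cx.val, Bool.false_eq_true, if_false, map_mul, map_inv, h, ih]
    · simp only [Cx.val, if_true, map_mul, h, ih]

/-- the subgroup of `F × QZ` by which we divide -/
def CE.NN {F : Type} [Group F] (c : CE F) : Subgroup (F × Multiplicative QZ) where
  carrier := {p | p.1 ∈ c.R ∧ p.2 = Multiplicative.ofAdd (- c.χ p.1)}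
  mul_mem' := by
    rintro ⟨a, x⟩ ⟨b, y⟩ ⟨ha, hx⟩ ⟨hb, hy⟩
    refine ⟨c.R.mul_mem ha hb, ?_⟩
    simp only at ha hb hx hy ⊢
    rw [Prod.fst_mul, Prod.snd_mul]
    simp only
    rw [hx, hy, c.add a ha b hb, ← ofAdd_add]
    congr 1
    abel
  one_mem' := by
    refine ⟨c.R.one_mem, ?_⟩
    simp only [Prod.fst_one, Prod.snd_one]
    rw [c.χ_one, neg_zero, ofAdd_zero]
  inv_mem' := by
    rintro ⟨a, x⟩ ⟨ha, hx⟩
    refine ⟨c.R.inv_mem ha, ?_⟩
    simp only at ha hx ⊢
    rw [Prod.fst_inv, Prod.snd_inv]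
    simp only
    rw [hx, c.χ_inv a ha, ← ofAdd_neg]

theorem CE.mem_NN {F : Type} [Group F] (c : CE F) (p : F × Multiplicative QZ) :
    p ∈ c.NN ↔ p.1 ∈ c.R ∧ p.2 = Multiplicative.ofAdd (- c.χ p.1) := Iff.rfl

theorem CE.NN_normal {F : Type} [Group F] (c : CE F) : c.NN.Normal := by
  refine ⟨?_⟩
  rintro ⟨r, s⟩ ⟨hr, hs⟩ ⟨a, d⟩
  refine ⟨c.conj_mem a r hr, ?_⟩
  have h1 : ((a, d) * (r, s) * (a, d)⁻¹ : F × Multiplicative QZ) = (a * r * a⁻¹, s) := by
    refine Prod.ext rfl ?_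
    change d * s * d⁻¹ = s
    rw [mul_comm d s, mul_inv_cancel_right]
  rw [h1]
  change s = Multiplicative.ofAdd (- c.χ (a * r * a⁻¹))
  rw [c.χ_conj a r hr]
  exact hs

theorem DG.split {V J E F G : Type} [Group F] [Group G] (S : DG V J E) (x₀ : E →₀ ℕ)
    (D : PiD S.cx x₀ G) (c : CE F) (π : F →* G) (hR : ∀ a, a ∈ c.R ↔ π a = 1)
    (f : J × (E →₀ ℕ) → F) (hf : ∀ a, π (f a) = D.g a)
    (b : J → (E →₀ ℕ) → QZ)
    (hb : ∀ i j M, S.vt i ≠ S.vt j →
      c.χ (S.sqv f i j M) = b i (M + δ (S.be (S.vt j))) + b j (M + δ (S.ed i))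
        - b i (M + δ (S.ed j)) - b j (M + δ (S.be (S.vt i)))) :
    ∃ ψ : F →* Multiplicative QZ, ∀ r ∈ c.R, Multiplicative.toAdd (ψ r) = c.χ r := by
  have := c.NN_normal
  let l : S.cx.Ed → (F × Multiplicative QZ) ⧸ c.NN := fun a =>
    ((f a, Multiplicative.ofAdd (- b a.1 a.2)) : F × Multiplicative QZ)
  have hlab : S.cx.Lab l := by
    rintro a1 a2 a3 a4 ⟨i, j, M, hij, h1, h2, h3, h4⟩
    have hsq : S.cx.sq a1 a2 a3 a4 := ⟨i, j, M, hij, h1, h2, h3, h4⟩
    have hD := D.sq a1 a2 a3 a4 hsq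
    have hbb := hb i j M hij
    rw [sqv, ← h1, ← h2, ← h3, ← h4] at hbb
    change (((f a1, Multiplicative.ofAdd (- b a1.1 a1.2)) *
      (f a2, Multiplicative.ofAdd (- b a2.1 a2.2)) : F × Multiplicative QZ) :
        (F × Multiplicative QZ) ⧸ c.NN) =
      (((f a3, Multiplicative.ofAdd (- b a3.1 a3.2)) *
      (f a4, Multiplicative.ofAdd (- b a4.1 a4.2)) : F × Multiplicative QZ) :
        (F × Multiplicative QZ) ⧸ c.NN)
    rw [QuotientGroup.eq_iff_div_mem, CE.mem_NN]
    have e1 : (((f a1, Multiplicative.ofAdd (- b a1.1 a1.2)) *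
      (f a2, Multiplicative.ofAdd (- b a2.1 a2.2))) / ((f a3, Multiplicative.ofAdd (- b a3.1 a3.2)) *
      (f a4, Multiplicative.ofAdd (- b a4.1 a4.2))) : F × Multiplicative QZ) =
      (f a1 * f a2 * (f a4)⁻¹ * (f a3)⁻¹, Multiplicative.ofAdd
        (- (b a1.1 a1.2 + b a2.1 a2.2 - b a4.1 a4.2 - b a3.1 a3.2))) := by
      refine Prod.ext ?_ ?_
      · change f a1 * f a2 / (f a3 * f a4) = _
        rw [div_eq_mul_inv, mul_inv_rev, mul_assoc (f a1 * f a2)]
      · change Multiplicative.ofAdd (- b a1.1 a1.2) * Multiplicative.ofAdd (- b a2.1 a2.2) /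
          (Multiplicative.ofAdd (- b a3.1 a3.2) * Multiplicative.ofAdd (- b a4.1 a4.2)) = _
        rw [← ofAdd_add, ← ofAdd_add, ← ofAdd_sub]
        congr 1
        abel
    rw [e1]
    refine ⟨?_, ?_⟩
    · change f a1 * f a2 * (f a4)⁻¹ * (f a3)⁻¹ ∈ c.R
      rw [hR]
      have k1 : π (f a1) = D.g a1 := hf a1
      have k2 : π (f a2) = D.g a2 := hf a2
      have k3 : π (f a3) = D.g a3 := hf a3
      have k4 : π (f a4) = D.g a4 := hf a4
      rw [map_mul, map_mul, map_mul, map_inv, map_inv, k1, k2, k3, k4, hD]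
      group
    · change Multiplicative.ofAdd _ = Multiplicative.ofAdd (- c.χ (f a1 * f a2 * (f a4)⁻¹ * (f a3)⁻¹))
      rw [hbb, h1, h2, h3, h4]
  obtain ⟨φ, hφ⟩ := D.univ _ l hlab
  let ρ : (F × Multiplicative QZ) ⧸ c.NN →* G :=
    QuotientGroup.lift c.NN (π.comp (MonoidHom.fst F (Multiplicative QZ))) (by
      rintro ⟨r, s⟩ ⟨hr, _⟩
      exact (hR r).1 hr)
  have hρ : ∀ p : F × Multiplicative QZ, ρ (p : (F × Multiplicative QZ) ⧸ c.NN) = π p.1 :=
    fun p => rfl
  have hρl : ∀ a, ρ (l a) = D.g a := fun a => hf a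
  have hρφ : ∀ γ : G, ρ (φ γ) = γ := by
    intro γ
    obtain ⟨w, hw, hwγ⟩ := D.surj γ
    rw [← hwγ, hφ w hw]
    exact Cx.map_val ρ l D.g hρl w
  let ι : Multiplicative QZ →* (F × Multiplicative QZ) ⧸ c.NN :=
    (QuotientGroup.mk' c.NN).comp (MonoidHom.inr F (Multiplicative QZ))
  have hι : ∀ d, ι d = (((1 : F), d) : F × Multiplicative QZ) := fun d => rfl
  have hinj : Function.Injective ι := by
    intro d d' h
    rw [hι, hι, QuotientGroup.eq_iff_div_mem, CE.mem_NN] at h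
    have h2 := h.2
    have e1 : (((1 : F), d) / ((1 : F), d') : F × Multiplicative QZ) = (1, d / d') :=
      Prod.ext (div_one 1) rfl
    rw [e1] at h2
    change d / d' = Multiplicative.ofAdd (- c.χ 1) at h2
    rw [c.χ_one, neg_zero, ofAdd_zero] at h2
    exact div_eq_one.1 h2
  have hcent : ∀ d x, ι d * x = x * ι d := by
    intro d x
    induction x using QuotientGroup.induction_on with
    | H p =>
      rcases p with ⟨a, e⟩
      rw [hι]
      change ((((1 : F), d) * (a, e) : F × Multiplicative QZ) : (F × Multiplicative QZ) ⧸ c.NN) =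
        (((a, e) * ((1 : F), d) : F × Multiplicative QZ) : (F × Multiplicative QZ) ⧸ c.NN)
      congr 1
      refine Prod.ext ?_ ?_
      · change 1 * a = a * 1
        rw [one_mul, mul_one]
      · exact mul_comm d e
  have hker : ∀ u ∈ c.R, ∀ v : Multiplicative QZ,
      ((u, v) : F × Multiplicative QZ) = ι (Multiplicative.ofAdd (c.χ u) * v) := by
    intro u hu v
    rw [hι, QuotientGroup.eq_iff_div_mem, CE.mem_NN]
    have e1 : (((u, v) : F × Multiplicative QZ) / ((1 : F), Multiplicative.ofAdd (c.χ u) * v)) =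
        (u, Multiplicative.ofAdd (- c.χ u)) := by
      refine Prod.ext (div_one u) ?_
      change v / (Multiplicative.ofAdd (c.χ u) * v) = _
      rw [ofAdd_neg, div_eq_mul_inv, mul_inv_rev, mul_inv_cancel_left]
    rw [e1]
    exact ⟨hu, rfl⟩
  let X : F → (F × Multiplicative QZ) ⧸ c.NN := fun a =>
    ((a, (1 : Multiplicative QZ)) : F × Multiplicative QZ) * (φ (π a))⁻¹
  have hX : ∀ a, ∃ d, X a = ι d := by
    intro a
    have h1 : ρ (X a) = 1 := by
      change ρ (((a, (1 : Multiplicative QZ)) : F × Multiplicative QZ) * (φ (π a))⁻¹) = 1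
      rw [map_mul, map_inv, hρφ, hρ]
      exact mul_inv_cancel _
    generalize X a = y at h1
    induction y using QuotientGroup.induction_on with
    | H p =>
      rcases p with ⟨u, v⟩
      rw [hρ] at h1
      exact ⟨_, hker u ((hR u).2 h1) v⟩
  choose ψ hψ using hX
  have hXmul : ∀ a a', X (a * a') = X a * X a' := by
    intro a a'
    have e1 : (((a * a', (1 : Multiplicative QZ)) : F × Multiplicative QZ) :
        (F × Multiplicative QZ) ⧸ c.NN) =
        (((a, (1 : Multiplicative QZ)) : F × Multiplicative QZ) : (F × Multiplicative QZ) ⧸ c.NN) *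
        (((a', (1 : Multiplicative QZ)) : F × Multiplicative QZ) :
          (F × Multiplicative QZ) ⧸ c.NN) := by
      rw [← QuotientGroup.mk_mul]
      congr 1
      refine Prod.ext rfl ?_
      change (1 : Multiplicative QZ) = 1 * 1
      rw [one_mul]
    have e2 : X (a * a') = ((a, (1 : Multiplicative QZ)) : F × Multiplicative QZ) * X a' *
        (φ (π a))⁻¹ := by
      change (((a * a', (1 : Multiplicative QZ)) : F × Multiplicative QZ) :
        (F × Multiplicative QZ) ⧸ c.NN) * (φ (π (a * a')))⁻¹ = _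
      rw [e1, map_mul, map_mul, mul_inv_rev]
      change _ = ((a, (1 : Multiplicative QZ)) : F × Multiplicative QZ) *
        (((a', (1 : Multiplicative QZ)) : F × Multiplicative QZ) * (φ (π a'))⁻¹) * (φ (π a))⁻¹
      simp only [mul_assoc]
    rw [e2, hψ a', mul_assoc, hcent, ← mul_assoc]
  refine ⟨MonoidHom.mk' ψ ?_, ?_⟩
  · intro a a'
    apply hinj
    rw [map_mul, ← hψ, ← hψ, ← hψ, hXmul]
  · intro r hr
    change Multiplicative.toAdd (ψ r) = c.χ r
    have h1 : ι (ψ r) = ι (Multiplicative.ofAdd (c.χ r)) := by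
      rw [← hψ r]
      change ((r, (1 : Multiplicative QZ)) : F × Multiplicative QZ) * (φ (π r))⁻¹ = _
      rw [(hR r).1 hr, map_one, inv_one, mul_one, hker r hr 1, mul_one]
    rw [hinj h1, toAdd_ofAdd]

end GB
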