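import Pool.Agent.Helper95.GB.GT.Coch
import Pool.Agent.Helper95.GB.GT.Split
import Pool.Agent.Helper95.GB.GT.Free
import Pool.Agent.Helper95.GB.GT.Char

/-! # GB/GT/Final: the criterion

Proof.  By `genus1_of` it is enough to show that the kernel `K` of `π = FreeGroup.lift T` is contained in the normal
closure of the commutators lying in `K`.  Suppose `r₀ ∈ K` is not in it; `exists_CE` gives `c` with `c.R = K`
and `χ r₀ ≠ 0`.  `π` is surjective, choose `f` with `π (f a) = D.g a` for all edges `a`.  `Lift`: `π (sqv f i j M) = 1`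
by `D.sq` (the labels of a 2-cell).  `exists_b` and `split` give `ψ : FreeGroup ι →* Multiplicative QZ` which agrees
with `χ` on `K`.  By `ker_le_commutator` `r₀` is in the commutator subgroup, so `ψ r₀ = 1` (target commutative), so
`χ r₀ = 0`, a contradiction.
-/

set_option autoImplicit false

namespace GB

theorem genus1_criterion {V J E G : Type} [Group G] [Fintype J] (S : DG V J E) (hPI : S.PI)
    (x₀ : E →₀ ℕ) (D : PiD S.cx x₀ G) {ι : Type} (T : ι → G)
    (hg : Subgroup.closure (Set.range T) = ⊤) (hT : Ind T) : Genus1 G := by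
  apply genus1_of T hg
  intro r₀ h₀
  by_contra h₁
  obtain ⟨c, hcR, hχ⟩ := exists_CE (FreeGroup.lift T).ker r₀ h₀ h₁
  have hsurj : Function.Surjective (FreeGroup.lift T) := by
    rw [← MonoidHom.range_eq_top, FreeGroup.range_lift_eq_closure, hg]
  choose f hf using fun a : J × (E →₀ ℕ) => hsurj (D.g a)
  have hR : ∀ a, a ∈ c.R ↔ FreeGroup.lift T a = 1 := by
    intro a
    rw [hcR, MonoidHom.mem_ker]
  have hlift : S.Lift c f := by
    intro i j M hij
    rw [hR]
    have hsq := D.sq (i, M + δ (S.be (S.vt j))) (j, M + δ (S.ed i)) (j, M + δ (S.be (S.vt i)))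
      (i, M + δ (S.ed j)) ⟨i, j, M, hij, rfl, rfl, rfl, rfl⟩
    simp only [DG.sqv, map_mul, map_inv, hf]
    rw [mul_inv_eq_one, mul_inv_eq_iff_eq_mul]
    exact hsq
  obtain ⟨b, hb⟩ := S.exists_b hPI c f hlift
  obtain ⟨ψ, hψ⟩ := S.split x₀ D c (FreeGroup.lift T) hR f hf b hb
  have hcomm : r₀ ∈ commutator (FreeGroup ι) := ker_le_commutator T hT h₀
  have h1 : ψ r₀ = 1 := by
    have h2 : commutator (FreeGroup ι) ≤ ψ.ker := Abelianization.commutator_subset_ker ψ
    exact h2 hcomm
  apply hχ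
  rw [← hψ r₀ ((hR r₀).2 h₀), h1]
  rfl

end GB
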