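import Pool.Agent.Helper95.GB.GT.Pi1

/-! # GB/GT/Pot: a function on the edges vanishing on closed walks vanishes on cycles (stub)

Proof.  Extend `a` to walks: `φ w = ∑ j, ext (a j) (ch w j)`; it is additive under concatenation,
`φ (rev w) = - φ w` (`ch (w ++ w') = ch w + ch w'`, `ch (rev w) = - ch w`), and `φ [((j,M),true)] = a j M`.
Let `s ~ t` if there is a walk from `s` to `t` with all half-edges at vertices in `A` (an equivalence relation:
`Cx.isWalk_append`, `Cx.isWalk_rev`).  Choose for every class a representative, and for every `s` a walk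
`W s` in `A` from the representative of its class to `s` (`Quotient.out`, `Classical.choice`).  Put `p s = φ (W s)`.
For `j` with `vt j ∈ A` and every `M`: the edge `(j,M)` goes from `s = M + δ (be (vt j))` to
`t = M + δ (ed j)`; `s ~ t`, and `W s ++ [((j,M),true)] ++ rev (W t)` is a closed walk, so
`a j M = p t - p s`.
Hence for `r : MvPolynomial E ℤ` and such `j`: `ext (a j) r = ext p (S.th j * r)` (linear in `r`, check on
monomials with `ext_X_mul`), and this also holds for all `j` with `z j = 0` at `r = z j`.  So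
`∑ j, ext (a j) (z j) = ext p (∑ j, S.th j * z j) = ext p 0 = 0`.
-/

set_option autoImplicit false

namespace GB

open MvPolynomial

namespace DG

variable {V J E : Type}

theorem ch_append (w w' : List ((J × (E →₀ ℕ)) × Bool)) :
    (ch (w ++ w') : J → MvPolynomial E ℤ) = ch w + ch w' := by
  induction w with
  | nil => simp [ch]
  | cons a w ih =>
    funext j
    have h := congrFun ih j
    simp only [List.cons_append, ch, Pi.add_apply] at h ⊢
    rw [h, add_assoc]

/-- the reversed list -/
private def rv (w : List ((J × (E →₀ ℕ)) × Bool)) : List ((J × (E →₀ ℕ)) × Bool) :=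
  (w.map (fun a => (a.1, !a.2))).reverse

private lemma ch_rv (w : List ((J × (E →₀ ℕ)) × Bool)) :
    (ch (rv w) : J → MvPolynomial E ℤ) = - ch w := by
  induction w with
  | nil =>
    funext j
    simp [rv, ch]
  | cons a w ih =>
    have h1 : rv (a :: w) = rv w ++ [(a.1, !a.2)] := by simp [rv]
    rw [h1, ch_append, ih]
    funext j
    rcases a with ⟨⟨i, M⟩, b⟩
    simp only [ch, Pi.add_apply, Pi.neg_apply, Pi.zero_apply, add_zero]
    by_cases hi : i = j
    · cases b <;> simp [hi] <;> ring
    · simp [hi]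

theorem ch_rev (S : DG V J E) (w : List ((J × (E →₀ ℕ)) × Bool)) :
    (ch (S.cx.rev w) : J → MvPolynomial E ℤ) = - ch w := by
  exact ch_rv w

/-- the chain of a closed walk is a cycle -/
theorem ch_closed [Fintype J] (S : DG V J E) (w : List ((J × (E →₀ ℕ)) × Bool)) (s t : E →₀ ℕ)
    (h : S.cx.IsWalk s w t) :
    ∑ j, S.th j * ch w j = monomial t 1 - monomial s 1 := by
  classical
  induction w generalizing s with
  | nil =>
    have hst : s = t := h
    subst hst
    simp [ch]
  | cons a w ih =>
    obtain ⟨h1, h2⟩ := h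
    rcases a with ⟨⟨i, M⟩, b⟩
    have hth : ∀ c : MvPolynomial E ℤ, (∑ j, S.th j * (if i = j then c else 0)) = S.th i * c := by
      intro c
      rw [Finset.sum_eq_single i]
      · simp
      · intro j _ hj
        simp [Ne.symm hj]
      · intro hi
        exact absurd (Finset.mem_univ i) hi
    have hmul : S.th i * monomial M (1 : ℤ)
        = monomial (M + δ (S.ed i)) 1 - monomial (M + δ (S.be (S.vt i))) 1 := by
      rw [th, sub_mul, X, X, monomial_mul, monomial_mul, one_mul, add_comm M, add_comm M]
    have h4 : ∑ j, S.th j * ch (((i, M), b) :: w) j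
        = (∑ j, S.th j * (if i = j then (if b then monomial M (1 : ℤ) else - monomial M 1) else 0))
          + ∑ j, S.th j * ch w j := by
      rw [← Finset.sum_add_distrib]
      apply Finset.sum_congr rfl
      intro j _
      rw [← mul_add]
      congr 1
    rw [h4, hth]
    cases b with
    | true =>
      have e1 : s = M + δ (S.be (S.vt i)) := h1.symm
      have h3 := ih (M + δ (S.ed i)) h2
      rw [h3, e1]
      simp only [if_true]
      rw [hmul]
      ring
    | false =>
      have e1 : s = M + δ (S.ed i) := h1.symm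
      have h3 := ih (M + δ (S.be (S.vt i))) h2
      rw [h3, e1]
      simp only [Bool.false_eq_true, if_false]
      rw [mul_neg, hmul]
      ring

private lemma inV_append {S : DG V J E} {A : Set V} {w w' : List ((J × (E →₀ ℕ)) × Bool)}
    (h : S.InV A w) (h' : S.InV A w') : S.InV A (w ++ w') := by
  intro a ha
  rcases List.mem_append.mp ha with h1 | h1
  · exact h a h1
  · exact h' a h1

private lemma inV_rev {S : DG V J E} {A : Set V} {w : List ((J × (E →₀ ℕ)) × Bool)}
    (h : S.InV A w) : S.InV A (rv w) := by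
  intro a ha
  have h1 : a ∈ (w.map (fun a => (a.1, !a.2))).reverse := ha
  rw [List.mem_reverse, List.mem_map] at h1
  obtain ⟨b, hb, rfl⟩ := h1
  exact h b hb

private lemma ext_th (S : DG V J E) {B : Type} [AddCommGroup B] (j : J) (f : (E →₀ ℕ) → B)
    (p : (E →₀ ℕ) → B)
    (hp : ∀ M, f M = p (M + δ (S.ed j)) - p (M + δ (S.be (S.vt j)))) (r : MvPolynomial E ℤ) :
    ext f r = ext p (S.th j * r) := by
  induction r using MvPolynomial.induction_on' with
  | monomial M n =>
    rw [ext_monomial, th, sub_mul, ext_sub, ext_X_mul, ext_X_mul, hp, smul_sub]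
  | add r r' h h' => rw [ext_add, mul_add, ext_add, h, h']

theorem pot [Fintype J] (S : DG V J E) {B : Type} [AddCommGroup B] (A : Set V)
    (a : J → (E →₀ ℕ) → B)
    (h : ∀ s w, S.cx.IsWalk s w s → S.InV A w → ∑ j, ext (a j) (ch w j) = 0)
    (z : J → MvPolynomial E ℤ) (hz : S.Cyc1 z) (hA : ∀ j, z j ≠ 0 → S.vt j ∈ A) :
    ∑ j, ext (a j) (z j) = 0 := by
  classical
  -- the value of a walk
  let φ : List ((J × (E →₀ ℕ)) × Bool) → B := fun w => ∑ j, ext (a j) (ch w j)
  have φ_append : ∀ w w', φ (w ++ w') = φ w + φ w' := by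
    intro w w'
    simp only [φ]
    rw [← Finset.sum_add_distrib]
    apply Finset.sum_congr rfl
    intro j _
    rw [ch_append, Pi.add_apply, ext_add]
  have φ_rev : ∀ w, φ (rv w) = - φ w := by
    intro w
    simp only [φ]
    rw [← Finset.sum_neg_distrib]
    apply Finset.sum_congr rfl
    intro j _
    rw [ch_rv, Pi.neg_apply, ext_neg]
  have φ_one : ∀ j M, φ [((j, M), true)] = a j M := by
    intro j M
    simp only [φ]
    rw [Finset.sum_eq_single j]
    · simp [ch, ext_monomial]
    · intro i _ hi
      simp [ch, Ne.symm hi, ext_zero]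
    · intro hj
      exact absurd (Finset.mem_univ j) hj
  -- the equivalence relation
  let R : Setoid (E →₀ ℕ) :=
    { r := fun s t => ∃ w : List ((J × (E →₀ ℕ)) × Bool), S.cx.IsWalk s w t ∧ S.InV A w
      iseqv := by
        refine ⟨?_, ?_, ?_⟩
        · intro s
          exact ⟨[], rfl, by intro a ha; simp at ha⟩
        · rintro s t ⟨w, hw, hA'⟩
          exact ⟨rv w, Cx.isWalk_rev (K := S.cx) hw, inV_rev hA'⟩
        · rintro s t u ⟨w, hw, hA'⟩ ⟨w', hw', hA''⟩
          exact ⟨w ++ w', Cx.isWalk_append (K := S.cx) hw hw', inV_append hA' hA''⟩ }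
  have hW : ∀ s : E →₀ ℕ, ∃ w : List ((J × (E →₀ ℕ)) × Bool),
      S.cx.IsWalk (Quotient.out (Quotient.mk R s)) w s ∧ S.InV A w := by
    intro s
    have h1 : R.r (Quotient.out (Quotient.mk R s)) s := Quotient.exact (Quotient.out_eq _)
    exact h1
  choose W hW1 hW2 using hW
  let p : (E →₀ ℕ) → B := fun s => φ (W s)
  have key : ∀ j, S.vt j ∈ A → ∀ M, a j M = p (M + δ (S.ed j)) - p (M + δ (S.be (S.vt j))) := by
    intro j hj M
    have hwalk : S.cx.IsWalk (M + δ (S.be (S.vt j))) [((j, M), true)] (M + δ (S.ed j)) :=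
      ⟨rfl, rfl⟩
    have hin : S.InV A [((j, M), true)] := by
      intro b hb
      rw [List.mem_singleton] at hb
      rw [hb]
      exact hj
    have hq : Quotient.mk R (M + δ (S.be (S.vt j))) = Quotient.mk R (M + δ (S.ed j)) :=
      Quotient.sound ⟨[((j, M), true)], hwalk, hin⟩
    have hw1 := hW1 (M + δ (S.be (S.vt j)))
    rw [hq] at hw1
    have hcl : S.cx.IsWalk (Quotient.out (Quotient.mk R (M + δ (S.ed j))))
        ((W (M + δ (S.be (S.vt j))) ++ [((j, M), true)]) ++ rv (W (M + δ (S.ed j))))
        (Quotient.out (Quotient.mk R (M + δ (S.ed j)))) :=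
      Cx.isWalk_append (K := S.cx) (Cx.isWalk_append (K := S.cx) hw1 hwalk)
        (Cx.isWalk_rev (K := S.cx) (hW1 (M + δ (S.ed j))))
    have h0 := h _ _ hcl (inV_append (inV_append (hW2 _) hin) (inV_rev (hW2 _)))
    have h1 : φ ((W (M + δ (S.be (S.vt j))) ++ [((j, M), true)])
        ++ rv (W (M + δ (S.ed j)))) = 0 := h0
    have h2 := φ_append (W (M + δ (S.be (S.vt j))) ++ [((j, M), true)])
      (rv (W (M + δ (S.ed j))))
    rw [h1, φ_append, φ_rev, φ_one] at h2
    simp only [p]
    rw [eq_comm, ← sub_eq_zero]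
    rw [eq_comm] at h2
    have h3 : φ (W (M + δ (S.ed j))) - φ (W (M + δ (S.be (S.vt j)))) - a j M
        = -(φ (W (M + δ (S.be (S.vt j)))) + a j M + -φ (W (M + δ (S.ed j)))) := by abel
    rw [h3, h2, neg_zero]
  have h5 : ∀ j, ext (a j) (z j) = ext p (S.th j * z j) := by
    intro j
    by_cases hz0 : z j = 0
    · rw [hz0, mul_zero, ext_zero, ext_zero]
    · exact ext_th S j (a j) p (key j (hA j hz0)) (z j)
  rw [Finset.sum_congr rfl (fun j _ => h5 j), ← ext_sum]
  have h6 : ∑ j, S.th j * z j = 0 := hz
  rw [h6, ext_zero]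

end DG

end GB
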