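import Pool.Agent.Helper95.GB.GT.Pi1

/-! # GB/GT/Torus: the value of a product of two walks (stub, prove in place)

Write `f[w; N] = S.cx.val f (sh N w)`.  For a walk `w` from `s` to `t` at vertices in `A` and a walk
`w'` from `s'` to `t'` at vertices not in `A` let
`τ(w,w') = f[w; s'] * f[w'; t] * f[w; t']⁻¹ * f[w'; s]⁻¹`.
Claim: `τ(w,w') ∈ R` and `χ τ(w,w') = BB (ch w) (ch w')`.

(1) `w = []` or `w' = []`: `τ = 1`, `ch [] = 0`.
(2) single forward steps `w = [((i,M),true)]`, `w' = [((j,M'),true)]`: `τ = sqv f i j (M + M')` (use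
`M + (M' + δ e) = M + M' + δ e`, commutativity), `vt i ≠ vt j`, and
`BB = ext (cc i j) (monomial M 1 * monomial M' 1) = cc i j (M + M') = χ (sqv f i j (M + M'))`.
(3) `w = [((i,M),false)]` a backward step from `s` to `t`: with `a = ((i,M),true)` (from `t` to `s`),
`τ([a⁻¹],w') = g₁⁻¹ * τ([a],w')⁻¹ * g₁` where `g₁ = f (i, M + s')`; so its `χ` is minus that of `τ([a],w')`
(`CE.χ_conj`, `CE.χ_inv`), and `ch [a⁻¹] = - ch [a]`.  Similarly for `w'`: with `b = ((j,M'),true)` from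
`t'` to `s'`: `τ(w,[b⁻¹]) = h₁⁻¹ * τ(w,[b])⁻¹ * h₁`, `h₁ = f (j, M' + s)` (check:
`τ(w,[b⁻¹]) = f[w; s'] * f(j,M'+t)⁻¹ * f[w; t']⁻¹ * f(j,M'+s)` and
`τ(w,[b]) = f[w; t'] * f(j,M'+t) * f[w; s']⁻¹ * f(j,M'+s)⁻¹`).
(4) `w' = b :: w''` (with `b` from `s'` to `u'`): `τ(w, b::w'') = τ(w,[b]) * (β * τ(w,w'') * β⁻¹)`, `β = f[[b]; s]`.
(5) `w = a :: w₁` (with `a` from `s` to `u`): `τ(a::w₁, w') = (α * τ(w₁,w') * α⁻¹) * τ([a],w')`, `α = f[[a]; s']`.
In (4), (5) membership and `χ` follow from `CE.conj_mem`, `CE.χ_conj`, `CE.add`, and `ch`, `BB` are additive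
(`ch (a :: w) = ch [a] + ch w`; prove bi-additivity of `BB` with `ext_add`, `Finset.sum_add_distrib`).
Order of the proof: first `w` and `w'` single steps (four sign cases), then induction on `w'` with `w` a
single step, then induction on `w`.
-/

set_option autoImplicit false

namespace GB

open MvPolynomial

namespace DG

variable {V J E F : Type} [Group F] [Fintype J]

theorem BB_add_left (S : DG V J E) (c : CE F) (f : J × (E →₀ ℕ) → F)
    (z₁ z₂ z' : J → MvPolynomial E ℤ) :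
    S.BB c f (z₁ + z₂) z' = S.BB c f z₁ z' + S.BB c f z₂ z' := by
  unfold BB
  simp only [Pi.add_apply, add_mul, ext_add, Finset.sum_add_distrib]

theorem BB_add_right (S : DG V J E) (c : CE F) (f : J × (E →₀ ℕ) → F)
    (z z₁ z₂ : J → MvPolynomial E ℤ) :
    S.BB c f z (z₁ + z₂) = S.BB c f z z₁ + S.BB c f z z₂ := by
  unfold BB
  simp only [Pi.add_apply, mul_add, ext_add, Finset.sum_add_distrib]

theorem BB_zero_left (S : DG V J E) (c : CE F) (f : J × (E →₀ ℕ) → F)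
    (z' : J → MvPolynomial E ℤ) : S.BB c f 0 z' = 0 := by
  have h := S.BB_add_left c f 0 0 z'
  rw [add_zero] at h
  exact left_eq_add.1 h

theorem BB_zero_right (S : DG V J E) (c : CE F) (f : J × (E →₀ ℕ) → F)
    (z : J → MvPolynomial E ℤ) : S.BB c f z 0 = 0 := by
  have h := S.BB_add_right c f z 0 0
  rw [add_zero] at h
  exact left_eq_add.1 h

theorem BB_neg_left (S : DG V J E) (c : CE F) (f : J × (E →₀ ℕ) → F)
    (z z' : J → MvPolynomial E ℤ) : S.BB c f (-z) z' = - S.BB c f z z' := by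
  have h := S.BB_add_left c f (-z) z z'
  rw [neg_add_cancel, BB_zero_left] at h
  exact eq_neg_of_add_eq_zero_left h.symm

theorem BB_neg_right (S : DG V J E) (c : CE F) (f : J × (E →₀ ℕ) → F)
    (z z' : J → MvPolynomial E ℤ) : S.BB c f z (-z') = - S.BB c f z z' := by
  have h := S.BB_add_right c f z (-z') z'
  rw [neg_add_cancel, BB_zero_right] at h
  exact eq_neg_of_add_eq_zero_left h.symm

omit [Fintype J] in
theorem ch_cons (a : (J × (E →₀ ℕ)) × Bool) (w : List ((J × (E →₀ ℕ)) × Bool)) :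
    ch (a :: w) = ch [a] + ch w := by
  funext j
  simp only [ch, Pi.add_apply, Pi.zero_apply, add_zero]

omit [Fintype J] in
theorem ch_flip (p : J × (E →₀ ℕ)) : ch [(p, false)] = - ch [(p, true)] := by
  classical
  funext j
  simp only [ch, Pi.neg_apply, Pi.zero_apply, add_zero]
  split_ifs <;> simp_all

/-- the commutator of two walks -/
noncomputable def tau (S : DG V J E) (f : J × (E →₀ ℕ) → F)
    (w w' : List ((J × (E →₀ ℕ)) × Bool)) (s t s' t' : E →₀ ℕ) : F :=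
  S.cx.val f (sh s' w) * S.cx.val f (sh t w') * (S.cx.val f (sh t' w))⁻¹ *
        (S.cx.val f (sh s w'))⁻¹

/-- the claim for two walks -/
def TP (S : DG V J E) (c : CE F) (f : J × (E →₀ ℕ) → F)
    (w w' : List ((J × (E →₀ ℕ)) × Bool)) (s t s' t' : E →₀ ℕ) : Prop :=
  S.tau f w w' s t s' t' ∈ c.R ∧ c.χ (S.tau f w w' s t s' t') = S.BB c f (ch w) (ch w')

omit [Fintype J] in
theorem val_sh_cons (S : DG V J E) (f : J × (E →₀ ℕ) → F) (N : E →₀ ℕ)
    (a : (J × (E →₀ ℕ)) × Bool) (w : List ((J × (E →₀ ℕ)) × Bool)) :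
    S.cx.val f (sh N (a :: w)) = S.cx.val f (sh N [a]) * S.cx.val f (sh N w) := by
  change (if a.2 then f (a.1.1, a.1.2 + N) else (f (a.1.1, a.1.2 + N))⁻¹) *
    S.cx.val f (sh N w) =
    ((if a.2 then f (a.1.1, a.1.2 + N) else (f (a.1.1, a.1.2 + N))⁻¹) * 1) *
    S.cx.val f (sh N w)
  rw [mul_one]

omit [Fintype J] in
theorem val_sh_fwd (S : DG V J E) (f : J × (E →₀ ℕ) → F) (N : E →₀ ℕ)
    (i : J) (M : E →₀ ℕ) : S.cx.val f (sh N [((i, M), true)]) = f (i, M + N) := by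
  change f (i, M + N) * 1 = _
  rw [mul_one]

omit [Fintype J] in
theorem val_sh_bwd (S : DG V J E) (f : J × (E →₀ ℕ) → F) (N : E →₀ ℕ)
    (i : J) (M : E →₀ ℕ) : S.cx.val f (sh N [((i, M), false)]) = (f (i, M + N))⁻¹ := by
  change (f (i, M + N))⁻¹ * 1 = _
  rw [mul_one]

omit [Fintype J] in
theorem val_sh_nil (S : DG V J E) (f : J × (E →₀ ℕ) → F) (N : E →₀ ℕ) :
    S.cx.val f (sh N []) = 1 := rfl

theorem tp_conj_inv (c : CE F) {X Y g : F} (hX : X ∈ c.R) (h : Y = g⁻¹ * X⁻¹ * g) :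
    Y ∈ c.R ∧ c.χ Y = - c.χ X := by
  have h1 := c.conj_mem g⁻¹ X⁻¹ (c.R.inv_mem hX)
  have h2 := c.χ_conj g⁻¹ X⁻¹ (c.R.inv_mem hX)
  rw [inv_inv] at h1 h2
  rw [h]
  exact ⟨h1, by rw [h2, c.χ_inv X hX]⟩

/-- two forward steps -/
theorem tp_ff (S : DG V J E) (c : CE F) (f : J × (E →₀ ℕ) → F) (hf : S.Lift c f)
    (i j : J) (M M' : E →₀ ℕ) (h : S.vt i ≠ S.vt j) :
    S.TP c f [((i, M), true)] [((j, M'), true)] (M + δ (S.be (S.vt i))) (M + δ (S.ed i))
      (M' + δ (S.be (S.vt j))) (M' + δ (S.ed j)) := by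
  classical
  have h1 : S.tau f [((i, M), true)] [((j, M'), true)] (M + δ (S.be (S.vt i)))
      (M + δ (S.ed i)) (M' + δ (S.be (S.vt j))) (M' + δ (S.ed j)) = S.sqv f i j (M + M') := by
    unfold tau sqv
    rw [val_sh_fwd, val_sh_fwd, val_sh_fwd, val_sh_fwd]
    have e1 : ∀ x : E →₀ ℕ, M + (M' + x) = M + M' + x := fun x => (add_assoc _ _ _).symm
    have e2 : ∀ x : E →₀ ℕ, M' + (M + x) = M + M' + x := fun x => by
      rw [← add_assoc, add_comm M' M]
    rw [e1, e1, e2, e2]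
  unfold TP
  rw [h1]
  refine ⟨hf i j _ h, ?_⟩
  have h2 : c.χ (S.sqv f i j (M + M')) = S.cc c f i j (M + M') := by
    unfold cc
    rw [if_neg h]
  rw [h2]
  have h3 : ∀ (i : J) (M : E →₀ ℕ) (j : J), (ch [((i, M), true)] : J → MvPolynomial E ℤ) j =
      if i = j then monomial M 1 else 0 := by
    intro i M j
    simp only [ch, Pi.zero_apply, add_zero]
    split_ifs <;> simp_all
  unfold BB
  rw [Finset.sum_eq_single i, Finset.sum_eq_single j, h3, h3, if_pos rfl, if_pos rfl,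
    monomial_mul, mul_one, ext_monomial, one_smul]
  · intro j' _ hj'
    rw [h3 j, if_neg (Ne.symm hj'), mul_zero, ext_zero]
  · intro h4
    exact absurd (Finset.mem_univ _) h4
  · intro i' _ hi'
    refine Finset.sum_eq_zero fun j' _ => ?_
    rw [h3 i, if_neg (Ne.symm hi'), zero_mul, ext_zero]
  · intro h4
    exact absurd (Finset.mem_univ _) h4

/-- the empty walk on the right -/
theorem tp_nil_right (S : DG V J E) (c : CE F) (f : J × (E →₀ ℕ) → F)
    (w : List ((J × (E →₀ ℕ)) × Bool)) (s t s' : E →₀ ℕ) : S.TP c f w [] s t s' s' := by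
  have h1 : S.tau f w [] s t s' s' = 1 := by
    unfold tau
    rw [val_sh_nil, val_sh_nil]
    group
  unfold TP
  rw [h1]
  refine ⟨c.R.one_mem, ?_⟩
  rw [c.χ_one]
  exact (S.BB_zero_right c f _).symm

/-- the empty walk on the left -/
theorem tp_nil_left (S : DG V J E) (c : CE F) (f : J × (E →₀ ℕ) → F)
    (w' : List ((J × (E →₀ ℕ)) × Bool)) (s s' t' : E →₀ ℕ) : S.TP c f [] w' s s s' t' := by
  have h1 : S.tau f [] w' s s s' t' = 1 := by
    unfold tau
    rw [val_sh_nil, val_sh_nil]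
    group
  unfold TP
  rw [h1]
  refine ⟨c.R.one_mem, ?_⟩
  rw [c.χ_one]
  exact (S.BB_zero_left c f _).symm

/-- a further step on the right -/
theorem tp_cons_right (S : DG V J E) (c : CE F) (f : J × (E →₀ ℕ) → F)
    (w : List ((J × (E →₀ ℕ)) × Bool)) (b : (J × (E →₀ ℕ)) × Bool)
    (w'' : List ((J × (E →₀ ℕ)) × Bool)) (s t s' u' t' : E →₀ ℕ)
    (h1 : S.TP c f w [b] s t s' u') (h2 : S.TP c f w w'' s t u' t') :
    S.TP c f w (b :: w'') s t s' t' := by
  have h3 : S.tau f w (b :: w'') s t s' t' = S.tau f w [b] s t s' u' *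
      (S.cx.val f (sh s [b]) * S.tau f w w'' s t u' t' * (S.cx.val f (sh s [b]))⁻¹) := by
    unfold tau
    rw [val_sh_cons S f t b w'', val_sh_cons S f s b w'']
    group
  have h4 := c.conj_mem (S.cx.val f (sh s [b])) _ h2.1
  unfold TP
  rw [h3]
  refine ⟨c.R.mul_mem h1.1 h4, ?_⟩
  rw [c.add _ h1.1 _ h4, c.χ_conj _ _ h2.1, h1.2, h2.2, ch_cons b w'', BB_add_right]

/-- a further step on the left -/
theorem tp_cons_left (S : DG V J E) (c : CE F) (f : J × (E →₀ ℕ) → F)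
    (w' : List ((J × (E →₀ ℕ)) × Bool)) (a : (J × (E →₀ ℕ)) × Bool)
    (w₁ : List ((J × (E →₀ ℕ)) × Bool)) (s u t s' t' : E →₀ ℕ)
    (h1 : S.TP c f [a] w' s u s' t') (h2 : S.TP c f w₁ w' u t s' t') :
    S.TP c f (a :: w₁) w' s t s' t' := by
  have h3 : S.tau f (a :: w₁) w' s t s' t' = (S.cx.val f (sh s' [a]) *
      S.tau f w₁ w' u t s' t' * (S.cx.val f (sh s' [a]))⁻¹) * S.tau f [a] w' s u s' t' := by
    unfold tau
    rw [val_sh_cons S f s' a w₁, val_sh_cons S f t' a w₁]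
    group
  have h4 := c.conj_mem (S.cx.val f (sh s' [a])) _ h2.1
  unfold TP
  rw [h3]
  refine ⟨c.R.mul_mem h4 h1.1, ?_⟩
  rw [c.add _ h4 _ h1.1, c.χ_conj _ _ h2.1, h1.2, h2.2, ch_cons a w₁, BB_add_left, add_comm]

/-- a forward step and a walk -/
theorem tp_fwd (S : DG V J E) (c : CE F) (f : J × (E →₀ ℕ) → F) (hf : S.Lift c f) (A : Set V)
    (i : J) (M : E →₀ ℕ) (hi : S.vt i ∈ A) (w' : List ((J × (E →₀ ℕ)) × Bool)) :
    ∀ (s' t' : E →₀ ℕ), S.cx.IsWalk s' w' t' → S.InV Aᶜ w' →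
    S.TP c f [((i, M), true)] w' (M + δ (S.be (S.vt i))) (M + δ (S.ed i)) s' t' := by
  induction w' with
  | nil =>
    intro s' t' hw' _
    have h : s' = t' := hw'
    rw [← h]
    exact tp_nil_right S c f _ _ _ _
  | cons b w'' ih =>
    intro s' t' hw' hA'
    obtain ⟨h1, h2⟩ := hw'
    refine tp_cons_right S c f _ b w'' _ _ s' (S.cx.tgt b) t' ?_
      (ih _ _ h2 fun a ha => hA' a (List.mem_cons_of_mem _ ha))
    have hb : S.vt b.1.1 ∉ A := hA' b List.mem_cons_self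
    obtain ⟨⟨j, M'⟩, b2⟩ := b
    have hne : S.vt i ≠ S.vt j := fun h => hb (h ▸ hi)
    have h5 := tp_ff S c f hf i j M M' hne
    cases b2 with
    | true =>
      have e1 : s' = M' + δ (S.be (S.vt j)) := h1.symm
      rw [e1]
      exact h5
    | false =>
      have e1 : s' = M' + δ (S.ed j) := h1.symm
      rw [e1]
      have h6 := tp_conj_inv c (g := f (j, M' + (M + δ (S.be (S.vt i))))) h5.1
        (Y := S.tau f [((i, M), true)] [((j, M'), false)] (M + δ (S.be (S.vt i)))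
          (M + δ (S.ed i)) (M' + δ (S.ed j)) (M' + δ (S.be (S.vt j)))) (by
          unfold tau
          rw [val_sh_bwd, val_sh_bwd, val_sh_fwd S f _ j M', val_sh_fwd S f _ j M']
          group)
      refine ⟨h6.1, ?_⟩
      rw [ch_flip, BB_neg_right, ← h5.2]
      exact h6.2

/-- a step and a walk -/
theorem tp_step (S : DG V J E) (c : CE F) (f : J × (E →₀ ℕ) → F) (hf : S.Lift c f) (A : Set V)
    (a : (J × (E →₀ ℕ)) × Bool) (ha : S.vt a.1.1 ∈ A) (w' : List ((J × (E →₀ ℕ)) × Bool))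
    (s' t' : E →₀ ℕ) (hw' : S.cx.IsWalk s' w' t') (hA' : S.InV Aᶜ w') :
    S.TP c f [a] w' (S.cx.src a) (S.cx.tgt a) s' t' := by
  obtain ⟨⟨i, M⟩, a2⟩ := a
  have h5 := tp_fwd S c f hf A i M ha w' s' t' hw' hA'
  cases a2 with
  | true => exact h5
  | false =>
    have h6 := tp_conj_inv c (g := f (i, M + s')) h5.1
      (Y := S.tau f [((i, M), false)] w' (M + δ (S.ed i)) (M + δ (S.be (S.vt i))) s' t') (by
        unfold tau
        rw [val_sh_bwd, val_sh_bwd, val_sh_fwd, val_sh_fwd]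
        group)
    refine ⟨h6.1, ?_⟩
    rw [ch_flip, BB_neg_left, ← h5.2]
    exact h6.2

theorem tp_all (S : DG V J E) (c : CE F) (f : J × (E →₀ ℕ) → F) (hf : S.Lift c f) (A : Set V)
    (w' : List ((J × (E →₀ ℕ)) × Bool)) (s' t' : E →₀ ℕ) (hw' : S.cx.IsWalk s' w' t')
    (hA' : S.InV Aᶜ w') (w : List ((J × (E →₀ ℕ)) × Bool)) :
    ∀ s t, S.cx.IsWalk s w t → S.InV A w → S.TP c f w w' s t s' t' := by
  induction w with
  | nil =>
    intro s t hw _
    have h : s = t := hw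
    rw [← h]
    exact tp_nil_left S c f _ _ _ _
  | cons a w₁ ih =>
    intro s t hw hA
    obtain ⟨h1, h2⟩ := hw
    refine tp_cons_left S c f w' a w₁ s (S.cx.tgt a) t s' t' ?_
      (ih _ _ h2 fun a ha => hA a (List.mem_cons_of_mem _ ha))
    rw [← h1]
    exact tp_step S c f hf A a (hA a List.mem_cons_self) w' s' t' hw' hA'

theorem torus (S : DG V J E) (c : CE F) (f : J × (E →₀ ℕ) → F) (hf : S.Lift c f) (A : Set V)
    (w w' : List ((J × (E →₀ ℕ)) × Bool)) (s t s' t' : E →₀ ℕ)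
    (hw : S.cx.IsWalk s w t) (hw' : S.cx.IsWalk s' w' t') (hA : S.InV A w) (hA' : S.InV Aᶜ w') :
    S.cx.val f (sh s' w) * S.cx.val f (sh t w') * (S.cx.val f (sh t' w))⁻¹ *
        (S.cx.val f (sh s w'))⁻¹ ∈ c.R ∧
      c.χ (S.cx.val f (sh s' w) * S.cx.val f (sh t w') * (S.cx.val f (sh t' w))⁻¹ *
        (S.cx.val f (sh s w'))⁻¹) = S.BB c f (ch w) (ch w') :=
  tp_all S c f hf A w' s' t' hw' hA' w s t hw hA

end DG

end GB
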