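import Pool.Agent.Helper95.GB.GT.Torus
import Pool.Agent.Helper95.GB.GT.Pot

/-! # GB/GT/Wedge: products of disjoint 1-cycles are killed

Proof.  Let `A = {v | ∃ i, S.vt i = v ∧ z i ≠ 0}`.  Then `z i ≠ 0 → vt i ∈ A`, and `z' j ≠ 0 → vt j ∉ A`
(by `hd`).

(1) For closed walks `w` at `s` in `A` and `w'` at `s'` in `Aᶜ`: `BB (ch w) (ch w') = 0`.  Indeed by `torus`
with `t = s`, `t' = s'` the element `τ = a * b * a⁻¹ * b⁻¹`, `a = f[w; s']`, `b = f[w'; s]`, lies in `R`, so
`χ τ = 0` by `c.com`.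

(2) Fix a closed walk `w'` in `Aᶜ`.  With `a i M = ∑ j, ext (cc i j) (monomial M 1 * ch w' j)` one has
`∑ i, ext (a i) (z i) = BB z (ch w')` for all `z` (both sides are additive in `z i`; on monomials
`ext (a i) (monomial M n) = n • a i M`, and `monomial M n = n • monomial M 1`).  By (1) and `pot`:
`BB z (ch w') = 0`.

(3) Fix `z`.  With `a' j M = ∑ i, ext (cc i j) (z i * monomial M 1)` one has
`∑ j, ext (a' j) (z' j) = BB z z'` (swap the sums).  By (2) and `pot` (for `Aᶜ`): `BB z z' = 0`.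
-/

set_option autoImplicit false

namespace GB

open MvPolynomial

private lemma wedge_ext {E A J : Type} [AddCommGroup A] [Fintype J] (k : J → (E →₀ ℕ) → A)
    (y : J → MvPolynomial E ℤ) (r : MvPolynomial E ℤ) :
    ext (fun M => ∑ j, ext (k j) (monomial M 1 * y j)) r = ∑ j, ext (k j) (r * y j) := by
  induction r using MvPolynomial.induction_on' with
  | monomial M n =>
    rw [ext_monomial, Finset.smul_sum]
    refine Finset.sum_congr rfl fun j _ => ?_
    have h : (monomial M n : MvPolynomial E ℤ) * y j = n • (monomial M 1 * y j) := by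
      rw [← smul_mul_assoc, smul_monomial, smul_eq_mul, mul_one]
    rw [h, ← extHom_apply, ← extHom_apply, map_zsmul]
  | add p q hp hq =>
    rw [ext_add, hp, hq, ← Finset.sum_add_distrib]
    refine Finset.sum_congr rfl fun j _ => ?_
    rw [add_mul, ext_add]

theorem DG.BB_zero {V J E F : Type} [Group F] [Fintype J] (S : DG V J E) (c : CE F)
    (f : J × (E →₀ ℕ) → F) (hf : S.Lift c f) (z z' : J → MvPolynomial E ℤ)
    (hz : S.Cyc1 z) (hz' : S.Cyc1 z') (hd : ∀ i j, S.vt i = S.vt j → z i = 0 ∨ z' j = 0) :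
    S.BB c f z z' = 0 := by
  classical
  let A : Set V := {v | ∃ i, S.vt i = v ∧ z i ≠ 0}
  have hzA : ∀ i, z i ≠ 0 → S.vt i ∈ A := fun i hi => ⟨i, rfl, hi⟩
  have hzA' : ∀ j, z' j ≠ 0 → S.vt j ∈ Aᶜ := by
    rintro j hj ⟨i, hi, hzi⟩
    rcases hd i j hi with h | h
    · exact hzi h
    · exact hj h
  have h1 : ∀ s w s' w', S.cx.IsWalk s w s → S.InV A w → S.cx.IsWalk s' w' s' → S.InV Aᶜ w' →
      S.BB c f (ch w) (ch w') = 0 := by
    intro s w s' w' hw hA hw' hA'
    obtain ⟨h2, h3⟩ := S.torus c f hf A w w' s s s' s' hw hw' hA hA'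
    rw [← h3]
    exact c.com _ _ h2
  have h2 : ∀ s' w', S.cx.IsWalk s' w' s' → S.InV Aᶜ w' → S.BB c f z (ch w') = 0 := by
    intro s' w' hw' hA'
    have key : ∀ x : J → MvPolynomial E ℤ,
        ∑ i, ext (fun M => ∑ j, ext (S.cc c f i j) (monomial M 1 * ch w' j)) (x i) =
          S.BB c f x (ch w') := by
      intro x
      unfold DG.BB
      refine Finset.sum_congr rfl fun i _ => ?_
      exact wedge_ext (fun j => S.cc c f i j) (ch w') (x i)
    rw [← key z]
    refine S.pot A _ ?_ z hz hzA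
    intro s w hw hA
    rw [key]
    exact h1 s w s' w' hw hA hw' hA'
  have key2 : ∀ x' : J → MvPolynomial E ℤ,
      ∑ j, ext (fun M => ∑ i, ext (S.cc c f i j) (z i * monomial M 1)) (x' j) =
        S.BB c f z x' := by
    intro x'
    unfold DG.BB
    rw [Finset.sum_comm]
    refine Finset.sum_congr rfl fun j _ => ?_
    have h := wedge_ext (fun i => S.cc c f i j) z (x' j)
    simp only [mul_comm _ (z _)] at h
    exact h
  rw [← key2 z']
  refine S.pot Aᶜ _ ?_ z' hz' hzA'
  intro s w hw hA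
  rw [key2]
  exact h2 s w hw hA

end GB
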